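import Pool.Agent.Helper44.TE.Alg

set_option autoImplicit false
set_option linter.unusedSectionVars false

namespace Pool.Agent.Helper44.TE

open Pool.Agent.Helper1.TE

theorem ch_join {S : Type} {K : ℕ} {step : ℕ → ℕ → ℕ → S → Option S} {t s a b : ℕ}
    {x y z w : S} (ha : a < K) (hb : b < K) (h1 : Ch step K t x y) (h2 : step t a b y = some z)
    (h3 : Ch (fun τ => step (t + 1 + τ)) K s z w) : Ch step K (t + 1 + s) x w :=
  (gCHS step K (t + 1) s x w).mpr ⟨z, Ch.succ a b ha hb h1 h2, h3⟩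

section

variable {Z : Type} {g : Gad Z} {tst : ℕ → ℕ} {leaf : ℕ → ℕ} {f : ℕ → ℕ → ℕ → ℕ}

/-- decomposition of a complete chain at the time `r * 5 ^ h + t'`. -/
theorem decomp {h j T : ℕ} {i : Fin 3} {C D E F : Fin 3 → Z} {r t' a b : ℕ} (hr : r ≤ 4)
    (ht' : t' < 5 ^ h)
    (h1 : Ch (opR g tst leaf f (h + 1) j T i) g.K (r * 5 ^ h + t') C D)
    (h2 : opR g tst leaf f (h + 1) j T i (r * 5 ^ h + t') a b D = some E)
    (h3 : Ch (fun τ => opR g tst leaf f (h + 1) j T i (r * 5 ^ h + t' + 1 + τ)) g.K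
      (5 ^ (h + 1) - (r * 5 ^ h + t' + 1)) E F) :
    ∃ P Q, Ch (opR g tst leaf f (h + 1) j T i) g.K (r * 5 ^ h) C P ∧
      Ch (blk g tst leaf f h j T i r) g.K t' P D ∧
      blk g tst leaf f h j T i r t' a b D = some E ∧
      Ch (fun τ => blk g tst leaf f h j T i r (t' + 1 + τ)) g.K (5 ^ h - (t' + 1)) E Q ∧
      Ch (fun τ => opR g tst leaf f (h + 1) j T i ((r + 1) * 5 ^ h + τ)) g.K
        ((4 - r) * 5 ^ h) Q F := by
  rw [ch_split g tst leaf f] at h1
  obtain ⟨P, h4, h5⟩ := h1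
  have e1 : 5 ^ (h + 1) - (r * 5 ^ h + t' + 1) = (5 ^ h - (t' + 1)) + (4 - r) * 5 ^ h := by
    have : 5 ^ (h + 1) = r * 5 ^ h + 5 ^ h + (4 - r) * 5 ^ h := by
      rw [← Nat.succ_mul, ← Nat.add_mul, pow_succ']
      congr 1
      omega
    omega
  rw [e1, gCHS] at h3
  obtain ⟨Q, h6, h7⟩ := h3
  refine ⟨P, Q, h4, h5, h2, ?_, ?_⟩
  · refine ch_congr (fun τ hτ a b s => ?_) h6
    unfold blk
    rw [show r * 5 ^ h + t' + 1 + τ = r * 5 ^ h + (t' + 1 + τ) by omega]
  · refine ch_congr (fun τ hτ a b s => ?_) h7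
    rw [show r * 5 ^ h + t' + 1 + (5 ^ h - (t' + 1) + τ) = (r + 1) * 5 ^ h + τ by
      rw [Nat.succ_mul]; omega]

variable (hg : g.OK) (hl : ∀ j, leaf j < g.K) (hf : ∀ j a b, f j a b < g.K)

include hg hl hf

theorem last34 {h j T : ℕ} {i : Fin 3} {x' y z : Z} {Q F : Fin 3 → Z} {a0 b0 : ℕ}
    (ha : a0 < g.K) (hb : b0 < g.K) (hx : g.V x') (hy : g.V y) (hz : g.V z)
    (h1 : Ch (blk g tst leaf f h j T i 3) g.K (5 ^ h)
      (tri i x' (g.sh a0 (g.hd (nval leaf f h (2 * j)) y))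
        (g.sh b0 (g.hd (nval leaf f h (2 * j + 1)) z))) Q)
    (h2 : Ch (blk g tst leaf f h j T i 4) g.K (5 ^ h) Q F) :
    a0 = nval leaf f h (2 * j) ∧ b0 = nval leaf f h (2 * j + 1) := by
  have hE := exact_all (tst := tst) hg hl hf h
  have hu' := nval_lt leaf f hl hf h (2 * j + 1)
  rw [b3 hg hl hf hE hx hy hz ha hx (hg.sh_V b0 hb _ (hg.hd_V _ hu' z hz))] at h1
  obtain ⟨rfl, rfl⟩ := h1
  rw [b4 hg hl hf hE hx hy hz hb hx hy] at h2
  exact ⟨rfl, h2.1⟩

theorem last_two {h j T : ℕ} {i : Fin 3} {x' y z : Z} {F : Fin 3 → Z} {a0 b0 : ℕ}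
    (ha : a0 < g.K) (hb : b0 < g.K) (hx : g.V x') (hy : g.V y) (hz : g.V z)
    (h1 : Ch (fun τ => opR g tst leaf f (h + 1) j T i ((2 + 1) * 5 ^ h + τ)) g.K
        ((4 - 2) * 5 ^ h)
      (tri i x' (g.sh a0 (g.hd (nval leaf f h (2 * j)) y))
        (g.sh b0 (g.hd (nval leaf f h (2 * j + 1)) z))) F) :
    a0 = nval leaf f h (2 * j) ∧ b0 = nval leaf f h (2 * j + 1) := by
  rw [show (4 - 2) * 5 ^ h = 5 ^ h + 5 ^ h by omega, gCHS] at h1
  obtain ⟨Q, h2, h3⟩ := h1
  refine last34 hg hl hf ha hb hx hy hz h2 (F := F) ?_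
  refine ch_congr (fun τ hτ a b s => ?_) h3
  unfold blk
  rw [show (2 + 1) * 5 ^ h + (5 ^ h + τ) = 4 * 5 ^ h + τ by omega]

/-- the state at the beginning of the block `r` is determined. -/
theorem state_det {h j T : ℕ} {i : Fin 3} {x y z : Z} {P Q F P' Q' F' : Fin 3 → Z} {r : ℕ}
    (hr : r ≤ 4) (hx : g.V x) (hy : g.V y) (hz : g.V z)
    (h1 : Ch (opR g tst leaf f (h + 1) j T i) g.K (r * 5 ^ h) (tri i x y z) P)
    (h2 : Ch (blk g tst leaf f h j T i r) g.K (5 ^ h) P Q)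
    (h3 : Ch (fun τ => opR g tst leaf f (h + 1) j T i ((r + 1) * 5 ^ h + τ)) g.K
        ((4 - r) * 5 ^ h) Q F)
    (h1' : Ch (opR g tst leaf f (h + 1) j T i) g.K (r * 5 ^ h) (tri i x y z) P')
    (h2' : Ch (blk g tst leaf f h j T i r) g.K (5 ^ h) P' Q')
    (h3' : Ch (fun τ => opR g tst leaf f (h + 1) j T i ((r + 1) * 5 ^ h + τ)) g.K
        ((4 - r) * 5 ^ h) Q' F') : P = P' ∧ ∀ k, g.V (P k) := by
  have hE := exact_all (tst := tst) hg hl hf h
  have hu := nval_lt leaf f hl hf h (2 * j)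
  have hu' := nval_lt leaf f hl hf h (2 * j + 1)
  interval_cases r
  · rw [p0] at h1 h1'
    rw [h1, h1', tri_all]
    exact ⟨rfl, hx, hy, hz⟩
  · rw [p1 hg hl hf hE hx hy hz] at h1 h1'
    rw [h1, h1', tri_all]
    exact ⟨rfl, hx, hg.hd_V _ hu y hy, hz⟩
  · rw [p2 hg hl hf hE hx hy hz] at h1 h1'
    rw [h1, h1', tri_all]
    exact ⟨rfl, hx, hg.hd_V _ hu y hy, hg.hd_V _ hu' z hz⟩
  · rw [p3 hg hl hf hE hx hy hz] at h1 h1'
    obtain ⟨a, ha, b, hb, x1, h4, rfl⟩ := h1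
    obtain ⟨a', ha', b', hb', x1', h4', rfl⟩ := h1'
    have hx1 := app_V hg (hf _ _ _) hx h4
    have hx1' := app_V hg (hf _ _ _) hx h4'
    rw [show (4 - 3) * 5 ^ h = 5 ^ h by omega] at h3 h3'
    obtain ⟨rfl, rfl⟩ := last34 hg hl hf ha hb hx1 hy hz h2 h3
    obtain ⟨rfl, rfl⟩ := last34 hg hl hf ha' hb' hx1' hy hz h2' h3'
    rw [h4] at h4'
    cases h4'
    rw [tri_all]
    exact ⟨rfl, hx1, hg.sh_V _ hu _ (hg.hd_V _ hu y hy), hg.sh_V _ hu' _ (hg.hd_V _ hu' z hz)⟩
  · rw [p4 hg hl hf hE hx hy hz] at h1 h1'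
    obtain ⟨b, hb, x1, h4, rfl⟩ := h1
    obtain ⟨b', hb', x1', h4', rfl⟩ := h1'
    have hx1 := app_V hg (hf _ _ _) hx h4
    have hx1' := app_V hg (hf _ _ _) hx h4'
    rw [b4 hg hl hf hE hx hy hz hb hx1 hy] at h2
    rw [b4 hg hl hf hE hx hy hz hb' hx1' hy] at h2'
    obtain ⟨rfl, -⟩ := h2
    obtain ⟨rfl, -⟩ := h2'
    rw [h4] at h4'
    cases h4'
    rw [tri_all]
    exact ⟨rfl, hx1, hy, hg.sh_V _ hu' _ (hg.hd_V _ hu' z hz)⟩

theorem unq_all (h : ℕ) : ∀ (j T : ℕ) (i : Fin 3) (C D D' E E' F F' : Fin 3 → Z)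
    (t a b a' b' : ℕ), t < 5 ^ h →
    (∀ k, g.V (C k)) → a < g.K → b < g.K → a' < g.K → b' < g.K →
    Ch (opR g tst leaf f h j T i) g.K t C D → opR g tst leaf f h j T i t a b D = some E →
    Ch (fun τ => opR g tst leaf f h j T i (t + 1 + τ)) g.K (5 ^ h - (t + 1)) E F →
    Ch (opR g tst leaf f h j T i) g.K t C D' → opR g tst leaf f h j T i t a' b' D' = some E' →
    Ch (fun τ => opR g tst leaf f h j T i (t + 1 + τ)) g.K (5 ^ h - (t + 1)) E' F' →
    D = D' ∧ E = E' ∧ (isG h t → a = a' ∧ b = b') := by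
  have hK : 0 < g.K := lt_of_le_of_lt (Nat.zero_le _) (hl 0)
  induction h with
  | zero =>
    intro j T i C D D' E E' F F' t a b a' b' ht hV ha hb ha' hb' c1 c2 c3 c1' c2' c3'
    have ht0 : t = 0 := by
      rw [pow_zero] at ht
      omega
    subst ht0
    rw [ch_zero_iff] at c1 c1'
    subst c1 c1'
    rw [opR] at c2 c2'
    rw [c2] at c2'
    cases c2'
    exact ⟨rfl, rfl, fun h => h.elim⟩
  | succ h ih =>
    intro j T i C D D' E E' F F' t a b a' b' ht hV ha hb ha' hb' c1 c2 c3 c1' c2' c3'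
    have h5 : 0 < 5 ^ h := by positivity
    obtain ⟨r, t', hr, ht', hrt⟩ : ∃ r t', r ≤ 4 ∧ t' < 5 ^ h ∧ t = r * 5 ^ h + t' := by
      refine ⟨t / 5 ^ h, t % 5 ^ h, ?_, Nat.mod_lt _ h5, ?_⟩
      · rw [pow_succ'] at ht
        have := (Nat.div_lt_iff_lt_mul h5).mpr ht
        omega
      · rw [Nat.mul_comm]
        exact (Nat.div_add_mod _ _).symm
    subst hrt
    obtain ⟨P, Q, d1, d2, d3, d4, d5⟩ := decomp hr ht' c1 c2 c3
    obtain ⟨P', Q', d1', d2', d3', d4', d5'⟩ := decomp hr ht' c1' c2' c3'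
    have hN : t' + 1 + (5 ^ h - (t' + 1)) = 5 ^ h := by omega
    have full := ch_join ha hb d2 d3 d4
    have full' := ch_join ha' hb' d2' d3' d4'
    rw [hN] at full full'
    rw [← tri_self i C] at d1 d1'
    obtain ⟨hPP, hPV⟩ := state_det hg hl hf hr (hV i) (hV (i + 1)) (hV (i + 2)) d1 full d5
      d1' full' d5'
    subst hPP
    have hG : isG (h + 1) (r * 5 ^ h + t')
        ↔ (r = 2 ∧ t' = 0) ∨ (r ≠ 2 ∧ isG h t') := by
      rw [isG, div_bl r ht', mod_bl r ht']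
    rw [hG]
    have key : ∀ (j' T' : ℕ) (i' : Fin 3), r ≠ 2 →
        (∀ τ < 5 ^ h, ∀ a b s, blk g tst leaf f h j T i r τ a b s
          = opR g tst leaf f h j' T' i' τ a b s) →
        D = D' ∧ E = E' ∧ ((r = 2 ∧ t' = 0) ∨ (r ≠ 2 ∧ isG h t') → a = a' ∧ b = b') := by
      intro j' T' i' hr2 hs
      have := ih j' T' i' P D D' E E' Q Q' t' a b a' b' ht' hPV ha hb ha' hb'
        (ch_congr (fun τ hτ a b s => hs τ (by omega) a b s) d2)
        ((hs t' ht' a b D) ▸ d3)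
        (ch_congr (fun τ hτ a b s => hs (t' + 1 + τ) (by omega) a b s) d4)
        (ch_congr (fun τ hτ a b s => hs τ (by omega) a b s) d2')
        ((hs t' ht' a' b' D') ▸ d3')
        (ch_congr (fun τ hτ a b s => hs (t' + 1 + τ) (by omega) a b s) d4')
      refine ⟨this.1, this.2.1, ?_⟩
      rintro (h6 | h6)
      · exact absurd h6.1 hr2
      · exact this.2.2 h6.2
    interval_cases r
    · exact key (2 * j) 1 (i + 1) (by norm_num)
        fun τ hτ a b s => op0 g tst leaf f h j T i τ a b s hτ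
    · exact key (2 * j + 1) 1 (i + 2) (by norm_num)
        fun τ hτ a b s => op1 g tst leaf f h j T i τ a b s hτ
    · -- the guess block
      have hE := exact_all (tst := tst) hg hl hf h
      have hu := nval_lt leaf f hl hf h (2 * j)
      have hu' := nval_lt leaf f hl hf h (2 * j + 1)
      rw [p2 hg hl hf hE (hV i) (hV (i + 1)) (hV (i + 2))] at d1
      subst d1
      -- the first step of the block is the right guess
      have good : ∀ (a0 b0 : ℕ) (G1 F1 : Fin 3 → Z), a0 < g.K → b0 < g.K →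
          guess g tst (f j) T i a0 b0 (tri i (C i) (g.hd (nval leaf f h (2 * j)) (C (i + 1)))
            (g.hd (nval leaf f h (2 * j + 1)) (C (i + 2)))) = some G1 →
          Ch (fun τ => opR g tst leaf f (h + 1) j T i ((2 + 1) * 5 ^ h + τ)) g.K
            ((4 - 2) * 5 ^ h) G1 F1 →
          a0 = nval leaf f h (2 * j) ∧ b0 = nval leaf f h (2 * j + 1) := by
        intro a0 b0 G1 F1 ha0 hb0 hg1 hc1
        rw [guess_tri, Option.map_eq_some_iff] at hg1
        obtain ⟨x', hx', rfl⟩ := hg1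
        exact last_two hg hl hf ha0 hb0 (app_V hg (hf _ _ _) (hV i) hx') (hV (i + 1))
          (hV (i + 2)) hc1
      rcases Nat.eq_zero_or_pos t' with h0 | h0
      · subst h0
        rw [ch_zero_iff] at d2 d2'
        subst d2 d2'
        have s1 : ∀ τ < 5 ^ h - (0 + 1), ∀ a b s,
            blk g tst leaf f h j T i 2 (0 + 1 + τ) a b s = some s := by
          intro τ hτ a b s
          have := op2 g tst leaf f h j T i (0 + 1 + τ) a b s (by omega)
          rw [if_neg (by omega)] at this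
          exact this
        rw [ch_some hK s1] at d4 d4'
        subst d4 d4'
        have s2 : ∀ a b s, blk g tst leaf f h j T i 2 0 a b s = guess g tst (f j) T i a b s := by
          intro a b s
          have := op2 g tst leaf f h j T i 0 a b s h5
          rw [if_pos rfl] at this
          exact this
        rw [s2] at d3 d3'
        obtain ⟨e1, e2⟩ := good a b _ _ ha hb d3 d5
        obtain ⟨e1', e2'⟩ := good a' b' _ _ ha' hb' d3' d5'
        subst e1 e2 e1' e2'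
        rw [d3] at d3'
        cases d3'
        exact ⟨rfl, rfl, fun _ => ⟨rfl, rfl⟩⟩
      · obtain ⟨t'', rfl⟩ : ∃ t'', t' = 1 + t'' := ⟨t' - 1, by omega⟩
        rw [ch_blk2 g tst leaf f hK (by omega)] at d2 d2'
        obtain ⟨a0, ha0, b0, hb0, d2⟩ := d2
        obtain ⟨a0', ha0', b0', hb0', d2'⟩ := d2'
        have s1 : ∀ a b s, blk g tst leaf f h j T i 2 (1 + t'') a b s = some s := by
          intro a b s
          have := op2 g tst leaf f h j T i (1 + t'') a b s (by omega)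
          rw [if_neg (by omega)] at this
          exact this
        rw [s1] at d3 d3'
        cases d3
        cases d3'
        have s2 : ∀ τ < 5 ^ h - (1 + t'' + 1), ∀ a b s,
            blk g tst leaf f h j T i 2 (1 + t'' + 1 + τ) a b s = some s := by
          intro τ hτ a b s
          have := op2 g tst leaf f h j T i (1 + t'' + 1 + τ) a b s (by omega)
          rw [if_neg (by omega)] at this
          exact this
        rw [ch_some hK s2] at d4 d4'
        subst d4 d4'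
        obtain ⟨e1, e2⟩ := good a0 b0 _ _ ha0 hb0 d2 d5
        obtain ⟨e1', e2'⟩ := good a0' b0' _ _ ha0' hb0' d2' d5'
        subst e1 e2 e1' e2'
        rw [d2] at d2'
        cases d2'
        refine ⟨rfl, rfl, ?_⟩
        rintro (h6 | h6)
        · omega
        · exact absurd rfl h6.1
    · exact key (2 * j) 2 (i + 1) (by norm_num)
        fun τ hτ a b s => op3 g tst leaf f h j T i τ a b s hτ
    · exact key (2 * j + 1) 2 (i + 2) (by norm_num)
        fun τ hτ a b s => op4 g tst leaf f h j T i τ a b s hτ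

end

theorem gUNQ : GoalUNQ := by
  intro _ _ Z g hg tst leaf f hl hf h j T i C D D' E E' F F' t a b a' b'
  exact unq_all hg hl hf h j T i C D D' E E' F F' t a b a' b'

end Pool.Agent.Helper44.TE
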