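import Pool.Agent.Helper44.TE.Alg

set_option autoImplicit false
set_option linter.unusedSectionVars false

namespace Pool.Agent.Helper44.TE

open Pool.Agent.Helper1.TE

section

variable {Z : Type} {g : Gad Z} {tst : ℕ → ℕ} {leaf : ℕ → ℕ} {f : ℕ → ℕ → ℕ → ℕ}

theorem le_GB (hg : g.OK) (B : ℕ) : B ≤ g.G * B := Nat.le_mul_of_pos_left _ hg.one_le

theorem st_hd' (hg : g.OK) {v : ℕ} (hv : v < g.K) {z : Z} (hz : g.V z) {B : ℕ}
    (hB : g.st z < B) : g.st (g.hd v z) < g.G * B :=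
  lt_of_lt_of_le (hg.st_hd v hv z hz) (Nat.mul_le_mul_left _ hB)

theorem app_st (hg : g.OK) {T v : ℕ} (hv : v < g.K) {z z' : Z} (hz : g.V z)
    (h : app g tst T v z = some z') {B : ℕ} (hB : g.st z < B) : g.st z' < g.G * B := by
  unfold app at h
  split_ifs at h with h1 h2 h3
  · cases h
    exact lt_of_lt_of_le hB (le_GB hg B)
  · cases h
    exact st_hd' hg hv hz hB
  · exact lt_of_le_of_lt (hg.st_un v z z' h) (lt_of_lt_of_le hB (le_GB hg B))

/-- valid and stack below `B`. -/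
def Bd (g : Gad Z) (B : ℕ) (z : Z) : Prop := g.V z ∧ g.st z < B

theorem Bd.mono (hg : g.OK) {B : ℕ} {z : Z} (h : Bd g B z) : Bd g (g.G * B) z :=
  ⟨h.1, lt_of_lt_of_le h.2 (le_GB hg B)⟩

theorem Bd.hd (hg : g.OK) {B v : ℕ} (hv : v < g.K) {z : Z} (h : Bd g B z) :
    Bd g (g.G * B) (g.hd v z) := ⟨hg.hd_V v hv z h.1, st_hd' hg hv h.1 h.2⟩

theorem Bd.sh (hg : g.OK) {B a : ℕ} (ha : a < g.K) {z : Z} (h : Bd g B z) :
    Bd g B (g.sh a z) := ⟨hg.sh_V a ha z h.1, by rw [hg.st_sh]; exact h.2⟩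

theorem Bd.app (hg : g.OK) {B T v : ℕ} (hv : v < g.K) {z z' : Z} (h : Bd g B z)
    (h' : Helper1.TE.app g tst T v z = some z') : Bd g (g.G * B) z' :=
  ⟨app_V hg hv h.1 h', app_st hg hv h.1 h' h.2⟩

variable (hg : g.OK) (hl : ∀ j, leaf j < g.K) (hf : ∀ j a b, f j a b < g.K)

include hg hl hf

theorem pre_bound {h j T : ℕ} {i : Fin 3} {x y z : Z} {D : Fin 3 → Z} {B : ℕ}
    (hx : Bd g B x) (hy : Bd g B y) (hz : Bd g B z) {r : ℕ} (hr : r ≤ 4)
    (hc : Ch (opR g tst leaf f (h + 1) j T i) g.K (r * 5 ^ h) (tri i x y z) D) :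
    ∀ k, Bd g (g.G * B) (D k) := by
  have hE := exact_all (tst := tst) hg hl hf h
  have hu := nval_lt leaf f hl hf h (2 * j)
  have hu' := nval_lt leaf f hl hf h (2 * j + 1)
  interval_cases r
  · rw [p0] at hc
    subst hc
    rw [tri_all]
    exact ⟨hx.mono hg, hy.mono hg, hz.mono hg⟩
  · rw [p1 hg hl hf hE hx.1 hy.1 hz.1] at hc
    subst hc
    rw [tri_all]
    exact ⟨hx.mono hg, hy.hd hg hu, hz.mono hg⟩
  · rw [p2 hg hl hf hE hx.1 hy.1 hz.1] at hc
    subst hc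
    rw [tri_all]
    exact ⟨hx.mono hg, hy.hd hg hu, hz.hd hg hu'⟩
  · rw [p3 hg hl hf hE hx.1 hy.1 hz.1] at hc
    obtain ⟨a, ha, b, hb, x', h1, rfl⟩ := hc
    rw [tri_all]
    exact ⟨hx.app hg (hf _ _ _) h1, (hy.hd hg hu).sh hg ha, (hz.hd hg hu').sh hg hb⟩
  · rw [p4 hg hl hf hE hx.1 hy.1 hz.1] at hc
    obtain ⟨b, hb, x', h1, rfl⟩ := hc
    rw [tri_all]
    exact ⟨hx.app hg (hf _ _ _) h1, hy.mono hg, (hz.hd hg hu').sh hg hb⟩

theorem bound_all (h : ℕ) : ∀ (j T : ℕ) (i : Fin 3) (C C' : Fin 3 → Z) (t B : ℕ), t ≤ 5 ^ h →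
    (∀ k, Bd g B (C k)) → Ch (opR g tst leaf f h j T i) g.K t C C' →
    ∀ k, Bd g (B * g.G ^ (h + 1)) (C' k) := by
  have hK : 0 < g.K := lt_of_le_of_lt (Nat.zero_le _) (hl 0)
  induction h with
  | zero =>
    intro j T i C C' t B ht hC hc k
    rw [show B * g.G ^ (0 + 1) = g.G * B by ring]
    rw [pow_zero] at ht
    interval_cases t
    · rw [ch_zero_iff] at hc
      subst hc
      exact (hC k).mono hg
    · rw [show 1 = 1 + 0 from rfl, ch_first] at hc
      simp only [ch_zero_iff] at hc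
      obtain ⟨a, ha, b, hb, z, h1, rfl⟩ := hc
      rw [opR, Option.map_eq_some_iff] at h1
      obtain ⟨w, h2, h3⟩ := h1
      rw [← h3]
      by_cases hki : k = i
      · subst hki
        rw [Function.update_self]
        exact (hC k).app hg (hl _) h2
      · rw [Function.update_of_ne hki]
        exact (hC k).mono hg
  | succ h ih =>
    intro j T i C C' t B ht hC hc k
    have h5 : 0 < 5 ^ h := by positivity
    obtain ⟨r, t', hr, ht', hrt⟩ : ∃ r t', r ≤ 4 ∧ t' ≤ 5 ^ h ∧ t = r * 5 ^ h + t' := by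
      rcases Nat.lt_or_ge t (5 * 5 ^ h) with h1 | h1
      · refine ⟨t / 5 ^ h, t % 5 ^ h, ?_, (Nat.mod_lt _ h5).le, ?_⟩
        · have := (Nat.div_lt_iff_lt_mul h5).mpr h1
          omega
        · rw [Nat.mul_comm]
          exact (Nat.div_add_mod _ _).symm
      · refine ⟨4, 5 ^ h, le_rfl, le_rfl, ?_⟩
        rw [pow_succ'] at ht
        omega
    subst hrt
    rw [ch_split g tst leaf f] at hc
    obtain ⟨E, hc1, hc2⟩ := hc
    rw [← tri_self i C] at hc1
    have hEb := pre_bound hg hl hf (hC i) (hC (i + 1)) (hC (i + 2)) hr hc1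
    have e1 : g.G * B * g.G ^ (h + 1) = B * g.G ^ (h + 1 + 1) := by ring
    rw [← e1]
    interval_cases r
    · rw [ch_blk0 g tst leaf f ht'] at hc2
      exact ih _ _ _ _ _ _ _ ht' hEb hc2 k
    · rw [ch_blk1 g tst leaf f ht'] at hc2
      exact ih _ _ _ _ _ _ _ ht' hEb hc2 k
    · have e2 : g.G * B ≤ g.G * B * g.G ^ (h + 1) :=
        Nat.le_mul_of_pos_right _ (Nat.pow_pos hg.one_le)
      rcases Nat.eq_zero_or_pos t' with h0 | h0
      · subst h0
        rw [ch_zero_iff] at hc2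
        subst hc2
        exact ⟨(hEb k).1, lt_of_lt_of_le (hEb k).2 e2⟩
      · -- the state before the guess is exact
        have hE := exact_all (tst := tst) hg hl hf h
        obtain ⟨t'', rfl⟩ : ∃ t'', t' = 1 + t'' := ⟨t' - 1, by omega⟩
        have hc3 : Ch (opR g tst leaf f (h + 1) j T i) g.K (3 * 5 ^ h)
            (tri i (C i) (C (i + 1)) (C (i + 2))) C' := by
          rw [show 3 * 5 ^ h = (2 + 1) * 5 ^ h from rfl, ch_split' g tst leaf f 2]
          refine ⟨E, hc1, ?_⟩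
          have hc4 := (ch_blk2 g tst leaf f hK ht').mp hc2
          rw [show 5 ^ h = 1 + (5 ^ h - 1) by omega]
          exact (ch_blk2 g tst leaf f hK (by omega)).mpr hc4
        have := pre_bound hg hl hf (hC i) (hC (i + 1)) (hC (i + 2)) (by norm_num) hc3 k
        exact ⟨this.1, lt_of_lt_of_le this.2 e2⟩
    · rw [ch_blk3 g tst leaf f ht'] at hc2
      exact ih _ _ _ _ _ _ _ ht' hEb hc2 k
    · rw [ch_blk4 g tst leaf f ht'] at hc2
      exact ih _ _ _ _ _ _ _ ht' hEb hc2 k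

end

theorem gALB : GoalALB := by
  intro _ _ Z g hg tst leaf f hl hf h j T i C C' t B ht hV hst hc k
  exact bound_all hg hl hf h j T i C C' t B ht (fun k => ⟨hV k, hst k⟩) hc k

end Pool.Agent.Helper44.TE
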