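import Pool.Agent.Helper44.TE.Chain

set_option autoImplicit false
set_option linter.unusedSectionVars false

namespace Pool.Agent.Helper44.TE

open Pool.Agent.Helper1.TE

section

variable {Z : Type} (g : Gad Z) (tst : ℕ → ℕ) (leaf : ℕ → ℕ) (f : ℕ → ℕ → ℕ → ℕ)

theorem nval_lt {K : ℕ} (hl : ∀ j, leaf j < K) (hf : ∀ j a b, f j a b < K) (h j : ℕ) :
    nval leaf f h j < K := by
  cases h with
  | zero => exact hl j
  | succ h => exact hf _ _ _

theorem app_one (v : ℕ) (z : Z) : app g tst 1 v z = some (g.hd v z) := rfl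

theorem app_two (v : ℕ) (z : Z) : app g tst 2 v z = g.un v z := rfl

/-- the visits of height `h` are exact. -/
def Exact (h : ℕ) : Prop :=
  ∀ (j T : ℕ) (i : Fin 3) (C C' : Fin 3 → Z), (∀ k, g.V (C k)) →
    (Ch (opR g tst leaf f h j T i) g.K (5 ^ h) C C' ↔
      ∃ z, app g tst T (nval leaf f h j) (C i) = some z ∧ C' = Function.update C i z)

variable {g tst leaf f}

theorem exact1 {h : ℕ} (hE : Exact g tst leaf f h) {j T : ℕ} {i : Fin 3} {x y z : Z}
    {D : Fin 3 → Z} (hx : g.V x) (hy : g.V y) (hz : g.V z) :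
    Ch (opR g tst leaf f h j T (i + 1)) g.K (5 ^ h) (tri i x y z) D ↔
      ∃ y', app g tst T (nval leaf f h j) y = some y' ∧ D = tri i x y' z := by
  rw [hE j T (i + 1) (tri i x y z) D ((tri_all i x y z).mpr ⟨hx, hy, hz⟩), tri_1]
  simp only [upd_1]

theorem exact2 {h : ℕ} (hE : Exact g tst leaf f h) {j T : ℕ} {i : Fin 3} {x y z : Z}
    {D : Fin 3 → Z} (hx : g.V x) (hy : g.V y) (hz : g.V z) :
    Ch (opR g tst leaf f h j T (i + 2)) g.K (5 ^ h) (tri i x y z) D ↔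
      ∃ z', app g tst T (nval leaf f h j) z = some z' ∧ D = tri i x y z' := by
  rw [hE j T (i + 2) (tri i x y z) D ((tri_all i x y z).mpr ⟨hx, hy, hz⟩), tri_2]
  simp only [upd_2]

theorem app_V (hg : g.OK) {T v : ℕ} (hv : v < g.K) {z z' : Z} (hz : g.V z)
    (h : app g tst T v z = some z') : g.V z' := by
  unfold app at h
  split_ifs at h with h1 h2 h3
  · cases h
    exact hz
  · cases h
    exact hg.hd_V v hv z hz
  · exact hg.un_V v hv z z' hz h

theorem p0 {h j T : ℕ} {i : Fin 3} {C D : Fin 3 → Z} :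
    Ch (opR g tst leaf f (h + 1) j T i) g.K (0 * 5 ^ h) C D ↔ D = C := by
  rw [Nat.zero_mul, ch_zero_iff]

section pref

variable (hg : g.OK) (hl : ∀ j, leaf j < g.K) (hf : ∀ j a b, f j a b < g.K) {h : ℕ}
  (hE : Exact g tst leaf f h) {j T : ℕ} {i : Fin 3} {x y z : Z} {D : Fin 3 → Z}
  (hx : g.V x) (hy : g.V y) (hz : g.V z)

include hg hl hf hE hx hy hz

theorem p1 : Ch (opR g tst leaf f (h + 1) j T i) g.K (1 * 5 ^ h) (tri i x y z) D ↔
    D = tri i x (g.hd (nval leaf f h (2 * j)) y) z := by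
  rw [show 1 * 5 ^ h = (0 + 1) * 5 ^ h from rfl, ch_split' g tst leaf f 0]
  simp only [p0, exists_eq_left]
  rw [ch_blk0 g tst leaf f le_rfl, exact1 hE hx hy hz]
  simp only [app_one, Option.some.injEq, exists_eq_left']

theorem p2 : Ch (opR g tst leaf f (h + 1) j T i) g.K (2 * 5 ^ h) (tri i x y z) D ↔
    D = tri i x (g.hd (nval leaf f h (2 * j)) y) (g.hd (nval leaf f h (2 * j + 1)) z) := by
  rw [show 2 * 5 ^ h = (1 + 1) * 5 ^ h from rfl, ch_split' g tst leaf f 1]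
  simp only [p1 hg hl hf hE hx hy hz, exists_eq_left]
  rw [ch_blk1 g tst leaf f le_rfl,
    exact2 hE hx (hg.hd_V _ (nval_lt leaf f hl hf h (2 * j)) y hy) hz]
  simp only [app_one, Option.some.injEq, exists_eq_left']

theorem p3 : Ch (opR g tst leaf f (h + 1) j T i) g.K (3 * 5 ^ h) (tri i x y z) D ↔
    ∃ a < g.K, ∃ b < g.K, ∃ x', app g tst T (f j a b) x = some x' ∧
      D = tri i x' (g.sh a (g.hd (nval leaf f h (2 * j)) y))
        (g.sh b (g.hd (nval leaf f h (2 * j + 1)) z)) := by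
  have hK : 0 < g.K := lt_of_le_of_lt (Nat.zero_le _) (hl 0)
  rw [show 3 * 5 ^ h = (2 + 1) * 5 ^ h from rfl, ch_split' g tst leaf f 2]
  simp only [p2 hg hl hf hE hx hy hz, exists_eq_left]
  have h5 : 0 < 5 ^ h := by positivity
  rw [show 5 ^ h = 1 + (5 ^ h - 1) by omega, ch_blk2 g tst leaf f hK (by omega)]
  simp only [guess_tri, Option.map_eq_some_iff]
  constructor
  · rintro ⟨a, ha, b, hb, x', h1, h2⟩
    exact ⟨a, ha, b, hb, x', h1, h2.symm⟩
  · rintro ⟨a, ha, b, hb, x', h1, h2⟩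
    exact ⟨a, ha, b, hb, x', h1, h2.symm⟩

/-- block 3, from any state with wrong or right guess. -/
theorem b3 {x' w : Z} {a : ℕ} (ha : a < g.K) (hx' : g.V x') (hw : g.V w) :
    Ch (blk g tst leaf f h j T i 3) g.K (5 ^ h)
      (tri i x' (g.sh a (g.hd (nval leaf f h (2 * j)) y)) w) D ↔
    a = nval leaf f h (2 * j) ∧ D = tri i x' y w := by
  have hu := nval_lt leaf f hl hf h (2 * j)
  rw [ch_blk3 g tst leaf f le_rfl,
    exact1 hE hx' (hg.sh_V a ha _ (hg.hd_V _ hu y hy)) hw]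
  simp only [app_two]
  constructor
  · rintro ⟨y', h1, h2⟩
    have h3 := hg.sound _ hu a ha y hy (by rw [h1]; rfl)
    subst h3
    rw [hg.ok _ hu y hy] at h1
    cases h1
    exact ⟨rfl, h2⟩
  · rintro ⟨rfl, h2⟩
    exact ⟨y, hg.ok _ hu y hy, h2⟩

/-- block 4. -/
theorem b4 {x' w : Z} {b : ℕ} (hb : b < g.K) (hx' : g.V x') (hw : g.V w) :
    Ch (blk g tst leaf f h j T i 4) g.K (5 ^ h)
      (tri i x' w (g.sh b (g.hd (nval leaf f h (2 * j + 1)) z))) D ↔
    b = nval leaf f h (2 * j + 1) ∧ D = tri i x' w z := by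
  have hu := nval_lt leaf f hl hf h (2 * j + 1)
  rw [ch_blk4 g tst leaf f le_rfl,
    exact2 hE hx' hw (hg.sh_V b hb _ (hg.hd_V _ hu z hz))]
  simp only [app_two]
  constructor
  · rintro ⟨y', h1, h2⟩
    have h3 := hg.sound _ hu b hb z hz (by rw [h1]; rfl)
    subst h3
    rw [hg.ok _ hu z hz] at h1
    cases h1
    exact ⟨rfl, h2⟩
  · rintro ⟨rfl, h2⟩
    exact ⟨z, hg.ok _ hu z hz, h2⟩

theorem p4 : Ch (opR g tst leaf f (h + 1) j T i) g.K (4 * 5 ^ h) (tri i x y z) D ↔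
    ∃ b < g.K, ∃ x', app g tst T (f j (nval leaf f h (2 * j)) b) x = some x' ∧
      D = tri i x' y (g.sh b (g.hd (nval leaf f h (2 * j + 1)) z)) := by
  have hu := nval_lt leaf f hl hf h (2 * j)
  have hu' := nval_lt leaf f hl hf h (2 * j + 1)
  rw [show 4 * 5 ^ h = (3 + 1) * 5 ^ h from rfl, ch_split' g tst leaf f 3]
  simp only [p3 hg hl hf hE hx hy hz]
  constructor
  · rintro ⟨E, ⟨a, ha, b, hb, x', h1, rfl⟩, h2⟩
    rw [b3 hg hl hf hE hx hy hz ha (app_V hg (hf _ _ _) hx h1)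
      (hg.sh_V b hb _ (hg.hd_V _ hu' z hz))] at h2
    obtain ⟨rfl, h3⟩ := h2
    exact ⟨b, hb, x', h1, h3⟩
  · rintro ⟨b, hb, x', h1, h2⟩
    refine ⟨_, ⟨_, hu, b, hb, x', h1, rfl⟩, ?_⟩
    rw [b3 hg hl hf hE hx hy hz hu (app_V hg (hf _ _ _) hx h1)
      (hg.sh_V b hb _ (hg.hd_V _ hu' z hz))]
    exact ⟨rfl, h2⟩

theorem p5 : Ch (opR g tst leaf f (h + 1) j T i) g.K (5 * 5 ^ h) (tri i x y z) D ↔
    ∃ x', app g tst T (f j (nval leaf f h (2 * j)) (nval leaf f h (2 * j + 1))) x = some x' ∧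
      D = tri i x' y z := by
  have hu := nval_lt leaf f hl hf h (2 * j)
  have hu' := nval_lt leaf f hl hf h (2 * j + 1)
  rw [show 5 * 5 ^ h = (4 + 1) * 5 ^ h from rfl, ch_split' g tst leaf f 4]
  simp only [p4 hg hl hf hE hx hy hz]
  constructor
  · rintro ⟨E, ⟨b, hb, x', h1, rfl⟩, h2⟩
    rw [b4 hg hl hf hE hx hy hz hb (app_V hg (hf _ _ _) hx h1) hy] at h2
    obtain ⟨rfl, h3⟩ := h2
    exact ⟨x', h1, h3⟩
  · rintro ⟨x', h1, h2⟩
    refine ⟨_, ⟨_, hu', x', h1, rfl⟩, ?_⟩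
    rw [b4 hg hl hf hE hx hy hz hu' (app_V hg (hf _ _ _) hx h1) hy]
    exact ⟨rfl, h2⟩

end pref

theorem exact_all (hg : g.OK) (hl : ∀ j, leaf j < g.K) (hf : ∀ j a b, f j a b < g.K) (h : ℕ) :
    Exact g tst leaf f h := by
  induction h with
  | zero =>
    intro j T i C C' hV
    have hK : 0 < g.K := lt_of_le_of_lt (Nat.zero_le _) (hl 0)
    rw [show 5 ^ 0 = 1 + 0 from rfl, ch_first]
    simp only [ch_zero_iff]
    constructor
    · rintro ⟨a, ha, b, hb, z, h1, rfl⟩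
      rw [opR, Option.map_eq_some_iff] at h1
      obtain ⟨w, h2, h3⟩ := h1
      exact ⟨w, h2, h3.symm⟩
    · rintro ⟨w, h2, h3⟩
      refine ⟨0, hK, 0, hK, C', ?_, rfl⟩
      rw [opR, Option.map_eq_some_iff]
      exact ⟨w, h2, h3.symm⟩
  | succ h ih =>
    intro j T i C C' hV
    have h1 := p5 hg hl hf ih (j := j) (T := T) (i := i) (D := C') (hV i) (hV (i + 1))
      (hV (i + 2))
    rw [tri_self] at h1
    rw [pow_succ', h1]
    constructor
    · rintro ⟨x', h2, h3⟩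
      refine ⟨x', h2, ?_⟩
      rw [h3, ← upd_0 i (C i), tri_self]
    · rintro ⟨x', h2, h3⟩
      refine ⟨x', h2, ?_⟩
      rw [h3, ← upd_0 i (C i), tri_self]

end

theorem gALG : GoalALG := by
  intro _ Z g hg tst leaf f hl hf h j T i C C' hV
  exact exact_all hg hl hf h j T i C C' hV

end Pool.Agent.Helper44.TE
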