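import Pool.Agent.Helper1.TE.Goals

set_option autoImplicit false

namespace Pool.Agent.Helper44.TE

open Pool.Agent.Helper1.TE

theorem gCHS : GoalCHS := by
  intro S step K s t x y
  induction t generalizing y with
  | zero =>
    constructor
    · intro h
      exact ⟨y, h, Ch.zero _⟩
    · rintro ⟨z, h1, h2⟩
      cases h2
      exact h1
  | succ t ih =>
    constructor
    · intro h
      have h' : Ch step K ((s + t) + 1) x y := h
      cases h' with
      | succ a b ha hb h1 h2 =>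
        obtain ⟨z, h3, h4⟩ := (ih _).mp h1
        exact ⟨z, h3, Ch.succ a b ha hb h4 h2⟩
    · rintro ⟨z, h1, h2⟩
      cases h2 with
      | succ a b ha hb h h' => exact Ch.succ a b ha hb ((ih _).mpr ⟨z, h1, h⟩) h'

section

variable {S : Type} {K : ℕ}

theorem ch_zero_iff {step : ℕ → ℕ → ℕ → S → Option S} {x y : S} :
    Ch step K 0 x y ↔ y = x := by
  constructor
  · intro h
    cases h
    rfl
  · rintro rfl
    exact Ch.zero _

theorem ch_congr {step step' : ℕ → ℕ → ℕ → S → Option S} {t : ℕ} {x y : S}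
    (h : ∀ τ < t, ∀ a b s, step τ a b s = step' τ a b s) (hc : Ch step K t x y) :
    Ch step' K t x y := by
  induction hc with
  | zero s => exact Ch.zero s
  | succ a b ha hb h1 h2 ih =>
    refine Ch.succ a b ha hb (ih fun τ hτ => h τ (by omega)) ?_
    rw [← h _ (by omega)]
    exact h2

theorem ch_congr_iff {step step' : ℕ → ℕ → ℕ → S → Option S} {t : ℕ} {x y : S}
    (h : ∀ τ < t, ∀ a b s, step τ a b s = step' τ a b s) :
    Ch step K t x y ↔ Ch step' K t x y :=
  ⟨ch_congr h, ch_congr fun τ hτ a b s => (h τ hτ a b s).symm⟩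

/-- chains of trivial steps. -/
theorem ch_some {step : ℕ → ℕ → ℕ → S → Option S} {t : ℕ} {x y : S} (hK : 0 < K)
    (h : ∀ τ < t, ∀ a b s, step τ a b s = some s) : Ch step K t x y ↔ y = x := by
  constructor
  · intro hc
    induction hc with
    | zero s => rfl
    | succ a b ha hb h1 h2 ih =>
      rw [h _ (by omega)] at h2
      have := ih fun τ hτ => h τ (by omega)
      rw [← this]
      exact (Option.some.inj h2).symm
  · rintro rfl
    induction t with
    | zero => exact Ch.zero _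
    | succ t ih =>
      exact Ch.succ 0 0 hK hK (ih fun τ hτ => h τ (by omega)) (h t (by omega) 0 0 _)

/-- the first step. -/
theorem ch_first {step : ℕ → ℕ → ℕ → S → Option S} {t : ℕ} {x y : S} :
    Ch step K (1 + t) x y ↔ ∃ a < K, ∃ b < K, ∃ z, step 0 a b x = some z ∧
      Ch (fun τ => step (1 + τ)) K t z y := by
  rw [gCHS]
  constructor
  · rintro ⟨z, h1, h2⟩
    cases h1 with
    | succ a b ha hb h h' =>
      rw [ch_zero_iff] at h
      subst h
      exact ⟨a, ha, b, hb, z, h', h2⟩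
  · rintro ⟨a, ha, b, hb, z, h1, h2⟩
    exact ⟨z, Ch.succ a b ha hb (Ch.zero _) h1, h2⟩

end

/-! ### three components -/

section tri

variable {Z : Type}

/-- the components `x, y, z` at the places `i, i + 1, i + 2`. -/
def tri (i : Fin 3) (x y z : Z) : Fin 3 → Z :=
  fun k => if k = i then x else if k = i + 1 then y else z

theorem tri_self (i : Fin 3) (C : Fin 3 → Z) : tri i (C i) (C (i + 1)) (C (i + 2)) = C := by
  funext k
  fin_cases i <;> fin_cases k <;> rfl

theorem tri_0 (i : Fin 3) (x y z : Z) : tri i x y z i = x := by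
  fin_cases i <;> rfl

theorem tri_1 (i : Fin 3) (x y z : Z) : tri i x y z (i + 1) = y := by
  fin_cases i <;> rfl

theorem tri_2 (i : Fin 3) (x y z : Z) : tri i x y z (i + 2) = z := by
  fin_cases i <;> rfl

theorem upd_0 (i : Fin 3) (x y z x' : Z) :
    Function.update (tri i x y z) i x' = tri i x' y z := by
  funext k
  fin_cases i <;> fin_cases k <;> rfl

theorem upd_1 (i : Fin 3) (x y z y' : Z) :
    Function.update (tri i x y z) (i + 1) y' = tri i x y' z := by
  funext k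
  fin_cases i <;> fin_cases k <;> rfl

theorem upd_2 (i : Fin 3) (x y z z' : Z) :
    Function.update (tri i x y z) (i + 2) z' = tri i x y z' := by
  funext k
  fin_cases i <;> fin_cases k <;> rfl

theorem tri_all {P : Z → Prop} (i : Fin 3) (x y z : Z) :
    (∀ k, P (tri i x y z k)) ↔ P x ∧ P y ∧ P z := by
  constructor
  · intro h
    exact ⟨tri_0 i x y z ▸ h i, tri_1 i x y z ▸ h (i + 1), tri_2 i x y z ▸ h (i + 2)⟩
  · rintro ⟨h1, h2, h3⟩ k
    unfold tri
    split_ifs
    · exact h1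
    · exact h2
    · exact h3

theorem tri_inj {i : Fin 3} {x y z x' y' z' : Z} (h : tri i x y z = tri i x' y' z') :
    x = x' ∧ y = y' ∧ z = z' := by
  refine ⟨?_, ?_, ?_⟩
  · rw [← tri_0 i x y z, h, tri_0]
  · rw [← tri_1 i x y z, h, tri_1]
  · rw [← tri_2 i x y z, h, tri_2]

theorem guess_tri (g : Gad Z) (tst : ℕ → ℕ) (f : ℕ → ℕ → ℕ) (T : ℕ) (i : Fin 3) (a b : ℕ)
    (x y z : Z) :
    guess g tst f T i a b (tri i x y z)
      = (app g tst T (f a b) x).map fun x' => tri i x' (g.sh a y) (g.sh b z) := by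
  unfold guess
  rw [tri_0, tri_1, tri_2]
  congr 1
  funext w
  rw [upd_0, upd_1, upd_2]

end tri

/-! ### blocks -/

section blocks

variable {Z : Type} (g : Gad Z) (tst : ℕ → ℕ) (leaf : ℕ → ℕ) (f : ℕ → ℕ → ℕ → ℕ)

theorem div_bl {h τ : ℕ} (r : ℕ) (hτ : τ < 5 ^ h) : (r * 5 ^ h + τ) / 5 ^ h = r := by
  rw [Nat.add_comm, Nat.add_mul_div_right _ _ (by positivity), Nat.div_eq_of_lt hτ, Nat.zero_add]

theorem mod_bl {h τ : ℕ} (r : ℕ) (hτ : τ < 5 ^ h) : (r * 5 ^ h + τ) % 5 ^ h = τ := by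
  rw [Nat.add_comm, Nat.add_mul_mod_self_right, Nat.mod_eq_of_lt hτ]

theorem op0 (h j T : ℕ) (i : Fin 3) (τ a b : ℕ) (C : Fin 3 → Z) (hτ : τ < 5 ^ h) :
    opR g tst leaf f (h + 1) j T i (0 * 5 ^ h + τ) a b C
      = opR g tst leaf f h (2 * j) 1 (i + 1) τ a b C := by
  rw [opR, div_bl 0 hτ, mod_bl 0 hτ, if_pos rfl]

theorem op1 (h j T : ℕ) (i : Fin 3) (τ a b : ℕ) (C : Fin 3 → Z) (hτ : τ < 5 ^ h) :
    opR g tst leaf f (h + 1) j T i (1 * 5 ^ h + τ) a b C
      = opR g tst leaf f h (2 * j + 1) 1 (i + 2) τ a b C := by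
  rw [opR, div_bl 1 hτ, mod_bl 1 hτ, if_neg (by decide), if_pos rfl]

theorem op2 (h j T : ℕ) (i : Fin 3) (τ a b : ℕ) (C : Fin 3 → Z) (hτ : τ < 5 ^ h) :
    opR g tst leaf f (h + 1) j T i (2 * 5 ^ h + τ) a b C
      = if τ = 0 then guess g tst (f j) T i a b C else some C := by
  rw [opR, div_bl 2 hτ, mod_bl 2 hτ, if_neg (by decide), if_neg (by decide), if_pos rfl]

theorem op3 (h j T : ℕ) (i : Fin 3) (τ a b : ℕ) (C : Fin 3 → Z) (hτ : τ < 5 ^ h) :
    opR g tst leaf f (h + 1) j T i (3 * 5 ^ h + τ) a b C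
      = opR g tst leaf f h (2 * j) 2 (i + 1) τ a b C := by
  rw [opR, div_bl 3 hτ, mod_bl 3 hτ, if_neg (by decide), if_neg (by decide), if_neg (by decide),
    if_pos rfl]

theorem op4 (h j T : ℕ) (i : Fin 3) (τ a b : ℕ) (C : Fin 3 → Z) (hτ : τ < 5 ^ h) :
    opR g tst leaf f (h + 1) j T i (4 * 5 ^ h + τ) a b C
      = opR g tst leaf f h (2 * j + 1) 2 (i + 2) τ a b C := by
  rw [opR, div_bl 4 hτ, mod_bl 4 hτ, if_neg (by decide), if_neg (by decide), if_neg (by decide),
    if_neg (by decide)]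

/-- the block `r` of the visit, started at its time `s`. -/
def blk (h j T : ℕ) (i : Fin 3) (r : ℕ) : ℕ → ℕ → ℕ → (Fin 3 → Z) → Option (Fin 3 → Z) :=
  fun τ => opR g tst leaf f (h + 1) j T i (r * 5 ^ h + τ)

theorem ch_blk0 {h j T : ℕ} {i : Fin 3} {t : ℕ} {C D : Fin 3 → Z} (ht : t ≤ 5 ^ h) :
    Ch (blk g tst leaf f h j T i 0) g.K t C D
      ↔ Ch (opR g tst leaf f h (2 * j) 1 (i + 1)) g.K t C D :=
  ch_congr_iff fun τ hτ a b s => op0 g tst leaf f h j T i τ a b s (by omega)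

theorem ch_blk1 {h j T : ℕ} {i : Fin 3} {t : ℕ} {C D : Fin 3 → Z} (ht : t ≤ 5 ^ h) :
    Ch (blk g tst leaf f h j T i 1) g.K t C D
      ↔ Ch (opR g tst leaf f h (2 * j + 1) 1 (i + 2)) g.K t C D :=
  ch_congr_iff fun τ hτ a b s => op1 g tst leaf f h j T i τ a b s (by omega)

theorem ch_blk3 {h j T : ℕ} {i : Fin 3} {t : ℕ} {C D : Fin 3 → Z} (ht : t ≤ 5 ^ h) :
    Ch (blk g tst leaf f h j T i 3) g.K t C D
      ↔ Ch (opR g tst leaf f h (2 * j) 2 (i + 1)) g.K t C D :=
  ch_congr_iff fun τ hτ a b s => op3 g tst leaf f h j T i τ a b s (by omega)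

theorem ch_blk4 {h j T : ℕ} {i : Fin 3} {t : ℕ} {C D : Fin 3 → Z} (ht : t ≤ 5 ^ h) :
    Ch (blk g tst leaf f h j T i 4) g.K t C D
      ↔ Ch (opR g tst leaf f h (2 * j + 1) 2 (i + 2)) g.K t C D :=
  ch_congr_iff fun τ hτ a b s => op4 g tst leaf f h j T i τ a b s (by omega)

theorem ch_blk2 {h j T : ℕ} {i : Fin 3} {t : ℕ} {C D : Fin 3 → Z} (hK : 0 < g.K)
    (ht : 1 + t ≤ 5 ^ h) :
    Ch (blk g tst leaf f h j T i 2) g.K (1 + t) C D
      ↔ ∃ a < g.K, ∃ b < g.K, guess g tst (f j) T i a b C = some D := by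
  rw [ch_first]
  constructor
  · rintro ⟨a, ha, b, hb, z, h1, h2⟩
    rw [ch_some hK] at h2
    · subst h2
      refine ⟨a, ha, b, hb, ?_⟩
      have := op2 g tst leaf f h j T i 0 a b C (by omega)
      rw [if_pos rfl] at this
      rw [← this]
      exact h1
    · intro τ hτ a b s
      have := op2 g tst leaf f h j T i (1 + τ) a b s (by omega)
      rw [if_neg (by omega)] at this
      exact this
  · rintro ⟨a, ha, b, hb, h1⟩
    refine ⟨a, ha, b, hb, D, ?_, ?_⟩
    · have := op2 g tst leaf f h j T i 0 a b C (by omega)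
      rw [if_pos rfl] at this
      rw [← this] at h1
      exact h1
    · rw [ch_some hK]
      intro τ hτ a b s
      have := op2 g tst leaf f h j T i (1 + τ) a b s (by omega)
      rw [if_neg (by omega)] at this
      exact this

/-- splitting off the last (maybe incomplete) block. -/
theorem ch_split {h j T : ℕ} {i : Fin 3} (r t : ℕ) {C D : Fin 3 → Z} :
    Ch (opR g tst leaf f (h + 1) j T i) g.K (r * 5 ^ h + t) C D
      ↔ ∃ E, Ch (opR g tst leaf f (h + 1) j T i) g.K (r * 5 ^ h) C E ∧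
        Ch (blk g tst leaf f h j T i r) g.K t E D := gCHS _ _ _ _ _ _

theorem ch_split' {h j T : ℕ} {i : Fin 3} (r : ℕ) {C D : Fin 3 → Z} :
    Ch (opR g tst leaf f (h + 1) j T i) g.K ((r + 1) * 5 ^ h) C D
      ↔ ∃ E, Ch (opR g tst leaf f (h + 1) j T i) g.K (r * 5 ^ h) C E ∧
        Ch (blk g tst leaf f h j T i r) g.K (5 ^ h) E D := by
  rw [Nat.succ_mul]
  exact ch_split g tst leaf f r (5 ^ h)

end blocks

end Pool.Agent.Helper44.TE
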