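import Pool.Agent.Helper1.TE.Goals3

set_option autoImplicit false

namespace Pool.Agent.Helper44.TE

open Pool.Agent.Helper1.TE
open Pool.Agent.Helper65.LinSpace (Dir inputSym inputMove)
open Pool.Agent.Helper6.Compile (Sy actInc actLoop tapeOf val incL tapeOf_zero tapeOf_read
  tapeOf_read_end tapeOf_write tapeOf_write_end val_incL length_incL val_append
  val_replicate_false val_replicate_true)

/-- Transport of a computation along an embedding of control states. -/
theorem XSteps.lift {w : List Bool} {p r : XP} {W : ℕ} (φ : XSt p → XSt r) (e : Option (XSt r))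
    (htp : ∀ a, xtp r (φ a) = xtp p a)
    (hact : ∀ a y s, xact r (φ a) y s =
      ((xact p a y s).1.elim e (fun a' => some (φ a')), (xact p a y s).2))
    {c c' : XConf p} (h : XSteps w p W c c') :
    XSteps w r W (c.1.elim e (fun a' => some (φ a')), c.2)
      (c'.1.elim e (fun a' => some (φ a')), c'.2) := by
  refine Relation.ReflTransGen.lift (fun c : XConf p => (c.1.elim e (fun a' => some (φ a')), c.2))
    ?_ c c' h
  rintro ⟨x, n, T, H⟩ c₂ ⟨a, hx, rfl, hb⟩
  simp only at hx
  subst hx
  refine ⟨φ a, rfl, ?_, hb⟩
  simp only [xstep, htp, hact]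

/-- A step on one tape. -/
theorem xstp_focus {w : List Bool} {p : XP} {W : ℕ} {a : XSt p} {i : ℕ} (hi : xtp p a = i) (n : ℕ)
    (T : ℕ → ℤ → Sy)
    (f : ℤ → Sy) (z : ℤ) {a' : Option (XSt p)} {s' : Sy} {d : Dir}
    (hact : xact p a (inputSym w n) (f z) = (a', .stay, s', d)) (h0 : 0 ≤ z + d.toInt)
    (h1 : z + d.toInt ≤ W + 1) :
    XStp w p W (some a, n, Function.update T i f, Function.update (fun _ => 0) i z)
      (a', n, Function.update T i (Function.update f z s'),
        Function.update (fun _ => 0) i (z + d.toInt)) := by
  refine ⟨a, rfl, ?_, ?_⟩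
  · simp only [xstep, hi, Function.update_self, hact, Function.update_idem, inputMove]
  · intro j
    by_cases hj : j = i
    · subst hj; simp only [Function.update_self]; exact ⟨h0, h1⟩
    · simp only [Function.update_of_ne hj]
      exact ⟨le_refl _, by positivity⟩

/-- Going back to the mark, changing the bits on the way by `g`. -/
theorem xback {w : List Bool} {p : XP} {W : ℕ} {a : XSt p} {i : ℕ} (hi : xtp p a = i) (n : ℕ)
    (T : ℕ → ℤ → Sy) {e : Option (XSt p)} (g : Bool → Bool)
    (hm : ∀ y, xact p a y .mark = (e, .stay, .mark, .stay))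
    (hb : ∀ y b, xact p a y (.bit b) = (some a, .stay, .bit (g b), .left)) (pre : List Bool) :
    ∀ suf : List Bool, pre.length ≤ W →
      XSteps w p W (some a, n, Function.update T i (tapeOf (pre ++ suf)),
          Function.update (fun _ => 0) i (pre.length : ℤ))
        (e, n, Function.update T i (tapeOf (pre.map g ++ suf)), Function.update (fun _ => 0) i 0) := by
  induction pre using List.reverseRecOn with
  | nil =>
    intro suf hW
    refine Relation.ReflTransGen.single ?_
    have := xstp_focus (w := w) (W := W) hi n T (tapeOf suf) 0 (a' := e) (s' := .mark) (d := .stay)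
      (by rw [tapeOf_zero]; exact hm _) (by simp [Dir.toInt]) (by simp [Dir.toInt]; positivity)
    rw [← tapeOf_zero suf, Function.update_eq_self] at this
    simpa [Dir.toInt] using this
  | append_singleton pre b ih =>
    intro suf hW
    have hW' : pre.length ≤ W := by simp at hW; omega
    refine Relation.ReflTransGen.head ?_ (by simpa using ih (g b :: suf) hW')
    have hl : ((pre ++ [b]).length : ℤ) = (pre.length : ℤ) + 1 := by simp
    rw [hl]
    have hlen : (pre.length : ℤ) ≤ W := by exact_mod_cast hW'
    have := xstp_focus (w := w) (W := W) hi n T (tapeOf (pre ++ b :: suf)) ((pre.length : ℤ) + 1)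
      (a' := some a) (s' := .bit (g b)) (d := .left) (by rw [tapeOf_read]; exact hb _ b)
      (by simp [Dir.toInt]) (by simp [Dir.toInt]; linarith)
    rw [tapeOf_write] at this
    simpa [Dir.toInt] using this

theorem xinc_carry (w : List Bool) (n W i : ℕ) (T : ℕ → ℤ → Sy) (suf : List Bool) :
    ∀ pre : List Bool, (pre ++ suf).length ≤ W →
      XSteps w (.inc i) W (some (1 : Fin 3), n, Function.update T i (tapeOf (pre ++ suf)),
          Function.update (fun _ => 0) i ((pre.length : ℤ) + 1))
        (none, n, Function.update T i (tapeOf (pre ++ incL suf)),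
          Function.update (fun _ => 0) i 0) := by
  have hback : ∀ (pre suf : List Bool), pre.length ≤ W →
      XSteps w (.inc i) W (some (2 : Fin 3), n, Function.update T i (tapeOf (pre ++ suf)),
          Function.update (fun _ => 0) i (pre.length : ℤ))
        (none, n, Function.update T i (tapeOf (pre ++ suf)), Function.update (fun _ => 0) i 0) := by
    intro pre suf h1
    have := xback (w := w) (p := .inc i) (W := W) (a := (2 : Fin 3)) (i := i) rfl n T (e := none) id
      (fun y => rfl) (fun y b => rfl) pre suf h1
    simpa using this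
  induction suf with
  | nil =>
    intro pre hW
    have hW' : pre.length ≤ W := by simpa using hW
    have hlen : (pre.length : ℤ) ≤ W := by exact_mod_cast hW'
    have h1 := xstp_focus (w := w) (p := .inc i) (W := W) (a := (1 : Fin 3)) (i := i) rfl n T (tapeOf pre)
      ((pre.length : ℤ) + 1) (a' := some (2 : Fin 3)) (s' := .bit true) (d := .left)
      (by rw [tapeOf_read_end]; rfl) (by simp [Dir.toInt]) (by simp [Dir.toInt]; linarith)
    rw [tapeOf_write_end] at h1
    refine Relation.ReflTransGen.head ?_ (hback pre [true] hW')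
    simpa [Dir.toInt] using h1
  | cons b t ih =>
    intro pre hW
    have hW' : pre.length ≤ W := by simp at hW; omega
    have hW2 : pre.length + 1 ≤ W := by simp at hW; omega
    have hlen : (pre.length : ℤ) ≤ W := by exact_mod_cast hW'
    have hlen2 : (pre.length : ℤ) + 1 ≤ W := by exact_mod_cast hW2
    cases b with
    | false =>
      have h1 := xstp_focus (w := w) (p := .inc i) (W := W) (a := (1 : Fin 3)) (i := i) rfl n T
        (tapeOf (pre ++ false :: t))
        ((pre.length : ℤ) + 1) (a' := some (2 : Fin 3)) (s' := .bit true) (d := .left)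
        (by rw [tapeOf_read]; rfl) (by simp [Dir.toInt]) (by simp [Dir.toInt]; linarith)
      rw [tapeOf_write] at h1
      refine Relation.ReflTransGen.head ?_ (hback pre (true :: t) hW')
      simpa [Dir.toInt] using h1
    | true =>
      have h1 := xstp_focus (w := w) (p := .inc i) (W := W) (a := (1 : Fin 3)) (i := i) rfl n T
        (tapeOf (pre ++ true :: t))
        ((pre.length : ℤ) + 1) (a' := some (1 : Fin 3)) (s' := .bit false) (d := .right)
        (by rw [tapeOf_read]; rfl) (by simp [Dir.toInt]; positivity) (by simp [Dir.toInt]; linarith)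
      rw [tapeOf_write] at h1
      refine Relation.ReflTransGen.head ?_ (by simpa [incL] using ih (pre ++ [false]) (by simpa using hW))
      simpa [Dir.toInt] using h1

/-- The increment. -/
theorem xinc_steps (w : List Bool) (n W i : ℕ) (T : ℕ → ℤ → Sy) (l : List Bool) (hl : l.length ≤ W) :
    XSteps w (.inc i) W (some (xentry (.inc i)), n, Function.update T i (tapeOf l), fun _ => 0)
      (none, n, Function.update T i (tapeOf (incL l)), fun _ => 0) := by
  have h1 := xstp_focus (w := w) (p := .inc i) (W := W) (a := (0 : Fin 3)) (i := i) rfl n T (tapeOf l)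
      0 (a' := some (1 : Fin 3)) (s' := .mark) (d := .right)
      (by rw [tapeOf_zero]; rfl) (by simp [Dir.toInt]) (by simp [Dir.toInt])
  rw [← tapeOf_zero l, Function.update_eq_self] at h1
  have h2 := xinc_carry w n W i T l [] (by simpa using hl)
  have h3 : Function.update (fun _ : ℕ => (0 : ℤ)) i 0 = fun _ => 0 := by
    funext j; simp [Function.update_apply]
  rw [h3] at h2
  exact Relation.ReflTransGen.head h1 (by simpa [Dir.toInt] using h2)

/-- The test of the loop. -/
theorem xloop_test_aux (w : List Bool) (n W i : ℕ) (p : XP) (T : ℕ → ℤ → Sy) (suf : List Bool) :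
    ∀ k : ℕ, k + suf.length ≤ W →
      (val suf = 0 ∧ XSteps w (.loop i p) W
        (some (Sum.inl 1), n, Function.update T i (tapeOf (List.replicate k false ++ suf)),
          Function.update (fun _ => 0) i ((k : ℤ) + 1))
        (none, n, Function.update T i (tapeOf (List.replicate k false ++ suf)),
          Function.update (fun _ => 0) i 0)) ∨
      (∃ l', l'.length = k + suf.length ∧ val l' + 1 = 2 ^ k * val suf ∧ XSteps w (.loop i p) W
        (some (Sum.inl 1), n, Function.update T i (tapeOf (List.replicate k false ++ suf)),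
          Function.update (fun _ => 0) i ((k : ℤ) + 1))
        (some (Sum.inr (xentry p)), n, Function.update T i (tapeOf l'),
          Function.update (fun _ => 0) i 0)) := by
  induction suf with
  | nil =>
    intro k hW
    left
    have hlen : (k : ℤ) ≤ W := by exact_mod_cast (by simpa using hW : k ≤ W)
    refine ⟨rfl, ?_⟩
    have h1 := xstp_focus (w := w) (p := .loop i p) (W := W) (a := Sum.inl (1 : Fin 4)) (i := i) rfl n T
      (tapeOf (List.replicate k false))
      ((k : ℤ) + 1) (a' := some (Sum.inl (3 : Fin 4))) (s' := .blank) (d := .left)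
      (by
        have := tapeOf_read_end (List.replicate k false)
        rw [List.length_replicate] at this
        rw [this]; rfl) (by simp [Dir.toInt]) (by simp [Dir.toInt]; linarith)
    have h2 : Function.update (tapeOf (List.replicate k false)) ((k : ℤ) + 1) .blank =
        tapeOf (List.replicate k false) := by
      have := tapeOf_read_end (List.replicate k false)
      rw [List.length_replicate] at this
      rw [← this, Function.update_eq_self]
    rw [h2] at h1
    have h3 := xback (w := w) (p := .loop i p) (W := W) (a := Sum.inl (3 : Fin 4)) (i := i) rfl n T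
      (e := none) id (fun y => rfl) (fun y b => rfl) (List.replicate k false) [] (by simpa using hW)
    have h4 : XSteps w (.loop i p) W (some (Sum.inl 3), n, Function.update T i
        (tapeOf (List.replicate k false)), Function.update (fun _ => 0) i (k : ℤ))
        (none, n, Function.update T i (tapeOf (List.replicate k false)),
          Function.update (fun _ => 0) i 0) := by simpa using h3
    have h5 := Relation.ReflTransGen.head (by simpa [Dir.toInt] using h1) h4
    simpa using h5
  | cons b t ih =>
    intro k hW
    have hW2 : k + 1 ≤ W := by simp at hW; omega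
    have hlen2 : (k : ℤ) + 1 ≤ W := by exact_mod_cast hW2
    have hread : tapeOf (List.replicate k false ++ b :: t) ((k : ℤ) + 1) = .bit b := by
      have := tapeOf_read (List.replicate k false) b t
      rwa [List.length_replicate] at this
    have hwrite : ∀ b', Function.update (tapeOf (List.replicate k false ++ b :: t)) ((k : ℤ) + 1)
        (.bit b') = tapeOf (List.replicate k false ++ b' :: t) := by
      intro b'
      have := tapeOf_write (List.replicate k false) b b' t
      rwa [List.length_replicate] at this
    cases b with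
    | false =>
      have h1 := xstp_focus (w := w) (p := .loop i p) (W := W) (a := Sum.inl (1 : Fin 4)) (i := i) rfl n T
        (tapeOf (List.replicate k false ++ false :: t))
        ((k : ℤ) + 1) (a' := some (Sum.inl (1 : Fin 4))) (s' := .bit false) (d := .right)
        (by rw [hread]; rfl) (by simp [Dir.toInt]; positivity) (by simp [Dir.toInt]; linarith)
      rw [hwrite] at h1
      have hrep : List.replicate (k + 1) false ++ t = List.replicate k false ++ false :: t := by
        rw [List.replicate_succ', List.append_assoc]; rfl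
      rcases ih (k + 1) (by simp at hW; omega) with ⟨h2, h3⟩ | ⟨l', h2, h3, h4⟩
      · left
        refine ⟨by simp [val, h2], ?_⟩
        rw [hrep] at h3
        refine Relation.ReflTransGen.head ?_ h3
        simpa [Dir.toInt] using h1
      · right
        refine ⟨l', by simp; omega, ?_, ?_⟩
        · rw [h3]; simp [val, pow_succ]; ring
        · rw [hrep] at h4
          refine Relation.ReflTransGen.head ?_ h4
          simpa [Dir.toInt] using h1
    | true =>
      right
      have h1 := xstp_focus (w := w) (p := .loop i p) (W := W) (a := Sum.inl (1 : Fin 4)) (i := i) rfl n T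
        (tapeOf (List.replicate k false ++ true :: t))
        ((k : ℤ) + 1) (a' := some (Sum.inl (2 : Fin 4))) (s' := .bit false) (d := .left)
        (by rw [hread]; rfl) (by simp [Dir.toInt]) (by simp [Dir.toInt]; linarith)
      rw [hwrite] at h1
      have h3 := xback (w := w) (p := .loop i p) (W := W) (a := Sum.inl (2 : Fin 4)) (i := i) rfl n T
        (e := some (Sum.inr (xentry p))) (fun _ => true) (fun y => rfl) (fun y b => rfl)
        (List.replicate k false) (false :: t) (by simp; omega)
      refine ⟨List.replicate k true ++ false :: t, by simp, ?_, ?_⟩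
      · have h4 := val_replicate_true k
        rw [val_append, List.length_replicate]
        simp only [val, Bool.toNat_false, Bool.toNat_true]
        have h5 : 2 ^ k * (1 + 2 * val t) = 2 ^ k + 2 ^ k * (2 * val t) := by ring
        rw [h5, zero_add]; omega
      · refine Relation.ReflTransGen.head ?_ (by simpa using h3)
        simpa [Dir.toInt] using h1

theorem xloop_test (w : List Bool) (n W i : ℕ) (p : XP) (T : ℕ → ℤ → Sy) (l : List Bool) (hl : l.length ≤ W) :
      (val l = 0 ∧ XSteps w (.loop i p) W
        (some (xentry (.loop i p)), n, Function.update T i (tapeOf l), fun _ => 0)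
        (none, n, Function.update T i (tapeOf l), fun _ => 0)) ∨
      (∃ l', l'.length = l.length ∧ val l' + 1 = val l ∧ XSteps w (.loop i p) W
        (some (xentry (.loop i p)), n, Function.update T i (tapeOf l), fun _ => 0)
        (some (Sum.inr (xentry p)), n, Function.update T i (tapeOf l'), fun _ => 0)) := by
  have h1 := xstp_focus (w := w) (p := .loop i p) (W := W) (a := Sum.inl (0 : Fin 4)) (i := i) rfl n T
      (tapeOf l) 0 (a' := some (Sum.inl (1 : Fin 4))) (s' := .mark) (d := .right)
      (by rw [tapeOf_zero]; rfl) (by simp [Dir.toInt]) (by simp [Dir.toInt])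
  rw [← tapeOf_zero l, Function.update_eq_self] at h1
  have h3 : Function.update (fun _ : ℕ => (0 : ℤ)) i 0 = fun _ => 0 := by
    funext j; simp [Function.update_apply]
  rcases xloop_test_aux w n W i p T l 0 (by simpa using hl) with ⟨h2, h4⟩ | ⟨l', h2, h5, h4⟩
  · left
    rw [h3] at h4
    exact ⟨h2, Relation.ReflTransGen.head h1 (by simpa [Dir.toInt] using h4)⟩
  · right
    rw [h3] at h4
    exact ⟨l', by simpa using h2, by simpa using h5,
      Relation.ReflTransGen.head h1 (by simpa [Dir.toInt] using h4)⟩


/-- one trivial step with a move of the input head. -/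
theorem xstp_in {w : List Bool} {p : XP} {W : ℕ} {a : XSt p} (ha : xtp p a = 0) (n : ℕ)
    (T : ℕ → ℤ → Sy) {a' : Option (XSt p)} {d : Dir}
    (hact : ∀ s, xact p a (inputSym w n) s = (a', d, s, .stay)) :
    XStp w p W (some a, n, T, fun _ => 0) (a', inputMove w d n, T, fun _ => 0) := by
  refine ⟨a, rfl, ?_, ?_⟩
  · simp only [xstep, ha, hact, Function.update_eq_self, Dir.toInt, add_zero]
  · intro j
    exact ⟨le_refl _, by positivity⟩

theorem gXSIM : GoalXSIM := by
  intro w B W p x x' hB h
  have hupd : ∀ (ls : ℕ → List Bool) (i : ℕ) (l : List Bool),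
      Function.update (fun j => tapeOf (ls j)) i (tapeOf l) =
        fun j => tapeOf (Function.update ls i l j) := by
    intro ls i l
    funext j
    by_cases hj : j = i
    · subst hj; simp
    · simp [Function.update_of_ne hj]
  have hself : ∀ (ls : ℕ → List Bool) (i : ℕ),
      Function.update (fun j => tapeOf (ls j)) i (tapeOf (ls i)) = fun j => tapeOf (ls j) := by
    intro ls i
    rw [hupd, Function.update_eq_self]
  induction h with
  | skip x =>
    intro ls hls
    refine ⟨ls, hls, Relation.ReflTransGen.single ?_⟩
    exact xstp_in (p := .skip) (a := ()) rfl x.2 _ (d := .stay) fun s => rfl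
  | inc i s n h =>
    intro ls hls
    refine ⟨Function.update ls i (incL (ls i)), ?_, ?_⟩
    · intro j
      by_cases hj : j = i
      · subst hj
        simp only [Function.update_self]
        refine ⟨by rw [val_incL, (hls j).1], ?_⟩
        rcases length_incL (ls j) with h1 | ⟨h1, h2⟩
        · exact h1.trans (hls j).2
        · rw [h2]
          rw [(hls j).1] at h1
          have : 2 ^ (ls j).length < 2 ^ W := by
            have h3 : s j + 1 ≤ B := h
            simp only at h1
            omega
          exact (Nat.pow_lt_pow_iff_right (by norm_num)).1 this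
      · simp only [Function.update_of_ne hj]; exact hls j
    · have := xinc_steps w n W i (fun j => tapeOf (ls j)) (ls i) (hls i).2
      rw [hself, hupd] at this
      exact this
  | seq h₁ h₂ ih₁ ih₂ =>
    rename_i p q s₁ s₂ s₃
    intro ls hls
    obtain ⟨ls₂, hls₂, hst₁⟩ := ih₁ ls hls
    obtain ⟨ls₃, hls₃, hst₂⟩ := ih₂ ls₂ hls₂
    refine ⟨ls₃, hls₃, ?_⟩
    have h1 := XSteps.lift (r := .seq p q) (φ := fun a : XSt p => (Sum.inl a : XSt p ⊕ XSt q))
      (e := some (Sum.inr (xentry q))) (fun a => rfl) (fun a y s => rfl) hst₁
    have h2 := XSteps.lift (r := .seq p q) (φ := fun a : XSt q => (Sum.inr a : XSt p ⊕ XSt q))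
      (e := none) (fun a => rfl) (fun a y s => rfl) hst₂
    exact h1.trans h2
  | loop_zero h =>
    rename_i i p s n
    intro ls hls
    refine ⟨ls, hls, ?_⟩
    rcases xloop_test w n W i p (fun j => tapeOf (ls j)) (ls i) (hls i).2 with
      ⟨h1, h2⟩ | ⟨l', h1, h2, h3⟩
    · rw [hself] at h2; exact h2
    · rw [(hls i).1] at h2
      simp only at h2
      omega
  | loop_succ h h₁ h₂ ih₁ ih₂ =>
    rename_i i p s₁ n x₂ x₃
    intro ls hls
    rcases xloop_test w n W i p (fun j => tapeOf (ls j)) (ls i) (hls i).2 with
      ⟨h1, h2⟩ | ⟨l', h1, h2, h3⟩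
    · rw [(hls i).1] at h1; exact absurd h1 h
    · obtain ⟨ls₂, hls₂, hst₁⟩ := ih₁ (Function.update ls i l') (by
        intro j
        by_cases hj : j = i
        · subst hj
          simp only [Function.update_self]
          rw [(hls j).1] at h2
          simp only at h2
          exact ⟨by omega, by rw [h1]; exact (hls j).2⟩
        · simp only [Function.update_of_ne hj]; exact hls j)
      obtain ⟨ls₃, hls₃, hst₂⟩ := ih₂ ls₂ hls₂
      refine ⟨ls₃, hls₃, ?_⟩
      rw [hself, hupd] at h3
      have h4 := XSteps.lift (r := .loop i p) (φ := fun a : XSt p => (Sum.inr a : Fin 4 ⊕ XSt p))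
        (e := some (Sum.inl 0)) (fun a => rfl) (fun a y s => rfl) hst₁
      exact (h3.trans h4).trans hst₂
  | mv d s n =>
    intro ls hls
    refine ⟨ls, hls, Relation.ReflTransGen.single ?_⟩
    exact xstp_in (p := .mv d) (a := ()) rfl n _ (d := d) fun s => rfl
  | rd h ih =>
    rename_i p₀ p₁ p₂ s n x'
    intro ls hls
    obtain ⟨ls₂, hls₂, hst⟩ := ih ls hls
    refine ⟨ls₂, hls₂, ?_⟩
    have h1 : XStp w (.rd p₀ p₁ p₂) W
        (some (xentry (.rd p₀ p₁ p₂)), n, (fun i => tapeOf (ls i)), fun _ => 0)
        (some (rdGo p₀ p₁ p₂ (inputSym w n)), n, (fun i => tapeOf (ls i)), fun _ => 0) :=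
      xstp_in (p := .rd p₀ p₁ p₂) (a := Sum.inl ()) rfl n _ (d := .stay) fun s => rfl
    refine Relation.ReflTransGen.head h1 ?_
    rcases hy : inputSym w n with _ | _ | _
    · rw [hy] at hst
      exact XSteps.lift (r := .rd p₀ p₁ p₂)
        (φ := fun a : XSt p₀ => (Sum.inr (Sum.inl a) : Unit ⊕ (XSt p₀ ⊕ (XSt p₁ ⊕ XSt p₂))))
        (e := none) (fun a => rfl) (fun a y s => rfl) hst
    · rw [hy] at hst
      exact XSteps.lift (r := .rd p₀ p₁ p₂)
        (φ := fun a : XSt p₁ =>
          (Sum.inr (Sum.inr (Sum.inl a)) : Unit ⊕ (XSt p₀ ⊕ (XSt p₁ ⊕ XSt p₂))))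
        (e := none) (fun a => rfl) (fun a y s => rfl) hst
    · rw [hy] at hst
      exact XSteps.lift (r := .rd p₀ p₁ p₂)
        (φ := fun a : XSt p₂ =>
          (Sum.inr (Sum.inr (Sum.inr a)) : Unit ⊕ (XSt p₀ ⊕ (XSt p₁ ⊕ XSt p₂))))
        (e := none) (fun a => rfl) (fun a y s => rfl) hst
  | whl_stop h =>
    rename_i p s n
    intro ls hls
    refine ⟨ls, hls, Relation.ReflTransGen.single ?_⟩
    exact xstp_in (p := .whl p) (a := Sum.inl ()) rfl n _ (d := .stay) fun s => by
      rw [h]
      rfl
  | whl_go h h₁ h₂ ih₁ ih₂ =>
    rename_i p s n x₂ x₃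
    intro ls hls
    obtain ⟨ls₂, hls₂, hst₁⟩ := ih₁ ls hls
    obtain ⟨ls₃, hls₃, hst₂⟩ := ih₂ ls₂ hls₂
    refine ⟨ls₃, hls₃, ?_⟩
    have h1 : XStp w (.whl p) W
        (some (xentry (.whl p)), n, (fun i => tapeOf (ls i)), fun _ => 0)
        (some (Sum.inr (xentry p)), n, (fun i => tapeOf (ls i)), fun _ => 0) :=
      xstp_in (p := .whl p) (a := Sum.inl ()) rfl n _ (d := .stay) fun s => by
        obtain ⟨y, hy⟩ := Option.ne_none_iff_exists'.mp h
        rw [hy]
        rfl
    have h4 := XSteps.lift (r := .whl p) (φ := fun a : XSt p => (Sum.inr a : Unit ⊕ XSt p))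
      (e := some (Sum.inl ())) (fun a => rfl) (fun a y s => rfl) hst₁
    exact (Relation.ReflTransGen.head h1 h4).trans hst₂

end Pool.Agent.Helper44.TE
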