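import Pool.Agent.Helper44.TE.THR
import Pool.Agent.Helper44.TE.Alb

set_option autoImplicit false
set_option linter.unusedSectionVars false

namespace Pool.Agent.Helper44.TE

open Pool.Agent.Helper1.TE

/-! ### inputs -/

section input

variable {k : ℕ} (I : TInput k)

/-- leaf values as numbers. -/
def lf : ℕ → ℕ := fun j => I.leaf j

/-- tables as numbers. -/
def tf : ℕ → ℕ → ℕ → ℕ := fun j x y =>
  if hx : x < k ∧ y < k then I.tab j ⟨x, hx.1⟩ ⟨y, hx.2⟩ else 0

theorem tf_fin (j : ℕ) (x y : Fin k) : tf I j x y = I.tab j x y := by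
  unfold tf
  rw [dif_pos ⟨x.2, y.2⟩]

theorem nval_val (n j : ℕ) : nval (lf I) (tf I) n j = I.val n j := by
  induction n generalizing j with
  | zero => rfl
  | succ n ih =>
    rw [nval, TInput.val, ih, ih, tf_fin]

theorem lf_lt (j : ℕ) : lf I j < k := (I.leaf j).2

theorem tf_lt (hk : 0 < k) (j a b : ℕ) : tf I j a b < k := by
  unfold tf
  split_ifs
  · exact Fin.isLt _
  · exact hk

end input

/-- the test of the root. -/
def tstc (c : ℕ) : ℕ → ℕ := fun v => if v = c then 1 else 0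

/-- the states. -/
abbrev PSt (h k : ℕ) (Q : Type) : Type :=
  Option (Fin k ⊕ (Fin k × Fin (5 ^ h) × (Fin 3 → Q) × Fin k × Fin k))

section prog

variable {Z : Type} (g : Gad Z) (h k : ℕ) {Q : Type} (dec : Q → Z) (D₀ : Fin 3 → Q)

/-- allowed guesses at the time `τ`. -/
def okG (h τ : ℕ) (a b : ℕ) : Prop := isG h τ ∨ (a = 0 ∧ b = 0)

/-- the edges. -/
def pedge : PSt h k Q → Fin k → PSt h k Q → Prop
  | none, _, some (.inr (_, τ, D, a, b)) => (τ : ℕ) = 0 ∧ D = D₀ ∧ okG h τ a b
  | some (.inr (c, τ, D, a, b)), v, some (.inr (c', τ', D', a', b')) =>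
      c' = c ∧ (τ' : ℕ) = τ + 1 ∧ okG h τ' a' b' ∧
        opR g (tstc c) (fun _ => v) (fun _ _ _ => v) h 1 0 0 τ a b (dec ∘ D) = some (dec ∘ D')
  | some (.inr (c, τ, D, a, b)), v, some (.inl c') =>
      c' = c ∧ (τ : ℕ) + 1 = 5 ^ h ∧
        (opR g (tstc c) (fun _ => v) (fun _ _ _ => v) h 1 0 0 τ a b (dec ∘ D)).isSome
  | _, _, _ => False

open Classical in
/-- the labels. -/
noncomputable def plab : PSt h k Q → Lab k
  | none => .leaf (2 ^ h)
  | some (.inl v) => .final v
  | some (.inr (_, τ, _, a, b)) =>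
      if isG h τ then .node (gN h 1 τ).1 a b else .leaf (lN h 1 τ)

/-- the program. -/
noncomputable def prog [Fintype Q] : BP k where
  S := PSt h k Q
  fin := inferInstance
  start := none
  lab := plab h k
  edge := pedge g h k dec D₀

theorem prog_size [Fintype Q] : (prog g h k dec D₀).size
    = 1 + k + k * 5 ^ h * Fintype.card Q ^ 3 * k ^ 2 := by
  change Fintype.card (PSt h k Q) = _
  simp only [Fintype.card_option, Fintype.card_sum, Fintype.card_prod, Fintype.card_fin,
    Fintype.card_fun]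
  ring

variable [Fintype Q] (I : TInput k)

/-- the step function of the algorithm on the input. -/
def opI (c : ℕ) : ℕ → ℕ → ℕ → (Fin 3 → Z) → Option (Fin 3 → Z) :=
  opR g (tstc c) (lf I) (tf I) h 1 0 0

theorem step_start (s' : PSt h k Q) : (prog g h k dec D₀).Step I none s' ↔
    ∃ (c : Fin k) (τ : Fin (5 ^ h)) (a b : Fin k), s' = some (.inr (c, τ, D₀, a, b)) ∧
      (τ : ℕ) = 0 ∧ okG h τ a b := by
  change pedge g h k dec D₀ none (I.leaf (2 ^ h)) s' ↔ _
  rcases s' with _ | v | ⟨c, τ, D, a, b⟩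
  · simp [pedge]
  · simp [pedge]
  · constructor
    · rintro ⟨h1, rfl, h3⟩
      exact ⟨c, τ, a, b, rfl, h1, h3⟩
    · rintro ⟨c1, τ1, a1, b1, h1, h2, h3⟩
      simp only [Option.some.injEq, Sum.inr.injEq, Prod.mk.injEq] at h1
      obtain ⟨rfl, rfl, rfl, rfl, rfl⟩ := h1
      exact ⟨h2, rfl, h3⟩

theorem step_fin (v : Fin k) (s' : PSt h k Q) :
    ¬ (prog g h k dec D₀).Step I (some (.inl v)) s' := fun h => h

variable {h k}

theorem step_mid (hL : GoalLOC) (c : Fin k) (τ : Fin (5 ^ h)) (D : Fin 3 → Q) (a b : Fin k)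
    (s' : PSt h k Q) :
    (prog g h k dec D₀).Step I (some (.inr (c, τ, D, a, b)) : PSt h k Q) s' ↔
    (∃ (τ' : Fin (5 ^ h)) (D' : Fin 3 → Q) (a' b' : Fin k),
      s' = some (.inr (c, τ', D', a', b')) ∧ (τ' : ℕ) = τ + 1 ∧ okG h τ' a' b' ∧
        opI g h k I c τ a b (dec ∘ D) = some (dec ∘ D')) ∨
    (s' = some (.inl c) ∧ (τ : ℕ) + 1 = 5 ^ h ∧ (opI g h k I c τ a b (dec ∘ D)).isSome) := by
  -- the answer to the query
  have key : ∃ v : Fin k, ((prog g h k dec D₀).Step I (some (.inr (c, τ, D, a, b))) s' ↔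
      pedge g h k dec D₀ (some (.inr (c, τ, D, a, b))) v s') ∧
      opR g (tstc c) (fun _ => (v : ℕ)) (fun _ _ _ => (v : ℕ)) h 1 0 0 τ a b (dec ∘ D)
        = opI g h k I c τ a b (dec ∘ D) := by
    by_cases hG : isG h τ
    · refine ⟨I.tab (gN h 1 τ).1 a b, ?_, ?_⟩
      · unfold BP.Step
        change (match plab h k (some (.inr (c, τ, D, a, b))) with
          | .leaf j => _
          | .node j x y => _
          | .final _ => False) ↔ _
        rw [plab, if_pos hG]
        rfl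
      · refine hL.1 g (tstc c) _ _ _ _ h 1 0 0 τ a b (dec ∘ D) (fun _ => ?_)
          (fun h' => absurd hG h')
        rw [tf_fin]
    · refine ⟨I.leaf (lN h 1 τ), ?_, ?_⟩
      · unfold BP.Step
        change (match plab h k (some (.inr (c, τ, D, a, b))) with
          | .leaf j => _
          | .node j x y => _
          | .final _ => False) ↔ _
        rw [plab, if_neg hG]
        rfl
      · exact hL.1 g (tstc c) _ _ _ _ h 1 0 0 τ a b (dec ∘ D) (fun h' => absurd h' hG)
          (fun _ => rfl)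
  obtain ⟨v, h1, h2⟩ := key
  rw [h1]
  rcases s' with _ | c' | ⟨c', τ', D', a', b'⟩
  · simp [pedge]
  · simp only [pedge, h2]
    constructor
    · rintro ⟨rfl, h3, h4⟩
      exact Or.inr ⟨rfl, h3, h4⟩
    · rintro (⟨τ1, D1, a1, b1, h3, -⟩ | ⟨h3, h4, h5⟩)
      · simp at h3
      · simp only [Option.some.injEq, Sum.inl.injEq] at h3
        exact ⟨h3, h4, h5⟩
  · simp only [pedge, h2]
    constructor
    · rintro ⟨rfl, h3, h4, h5⟩
      exact Or.inl ⟨τ', D', a', b', rfl, h3, h4, h5⟩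
    · rintro (⟨τ1, D1, a1, b1, h3, h4, h5, h6⟩ | ⟨h3, -⟩)
      · simp only [Option.some.injEq, Sum.inr.injEq, Prod.mk.injEq] at h3
        obtain ⟨rfl, rfl, rfl, rfl, rfl⟩ := h3
        exact ⟨rfl, h4, h5, h6⟩
      · simp at h3

end prog

/-! ### sequences -/

section seq

variable {S : Type} {K : ℕ}

theorem seq_of_ch {step : ℕ → ℕ → ℕ → S → Option S} {n : ℕ} {x y : S}
    (hc : Ch step K n x y) : ∃ (X : ℕ → S) (a b : ℕ → ℕ), X 0 = x ∧ X n = y ∧
      ∀ i < n, a i < K ∧ b i < K ∧ step i (a i) (b i) (X i) = some (X (i + 1)) := by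
  induction hc with
  | zero s => exact ⟨fun _ => s, fun _ => 0, fun _ => 0, rfl, rfl, fun i hi => absurd hi (by omega)⟩
  | succ a b ha hb h1 h2 ih =>
    rename_i t x1 y1 z1
    obtain ⟨X, a1, b1, hX0, hXn, hst⟩ := ih
    refine ⟨fun i => if i ≤ t then X i else z1, fun i => if i < t then a1 i else a,
      fun i => if i < t then b1 i else b, ?_, ?_, ?_⟩
    · simp only [Nat.zero_le, if_true]
      exact hX0
    · simp only [show ¬ t + 1 ≤ t by omega, if_false]
    · intro i hi
      rcases Nat.lt_or_ge i t with h3 | h3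
      · simp only [if_pos h3, if_pos h3.le, if_pos (show i + 1 ≤ t by omega)]
        exact hst i h3
      · have h4 : i = t := by omega
        subst h4
        simp only [lt_irrefl, if_false, le_refl, if_true, show ¬ i + 1 ≤ i by omega]
        rw [hXn]
        exact ⟨ha, hb, h2⟩

theorem ch_of_seq {step : ℕ → ℕ → ℕ → S → Option S} {X : ℕ → S} {a b : ℕ → ℕ} {s n : ℕ}
    (h : ∀ i, s ≤ i → i < s + n → a i < K ∧ b i < K ∧ step i (a i) (b i) (X i) = some (X (i + 1))) :
    Ch (fun τ => step (s + τ)) K n (X s) (X (s + n)) := by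
  induction n with
  | zero => exact Ch.zero _
  | succ n ih =>
    obtain ⟨h1, h2, h3⟩ := h (s + n) (by omega) (by omega)
    exact Ch.succ _ _ h1 h2 (ih fun i hi hi' => h i hi (by omega)) h3

theorem ch_of_seq0 {step : ℕ → ℕ → ℕ → S → Option S} {X : ℕ → S} {a b : ℕ → ℕ} {n : ℕ}
    (h : ∀ i, i < n → a i < K ∧ b i < K ∧ step i (a i) (b i) (X i) = some (X (i + 1))) :
    Ch step K n (X 0) (X n) := by
  have := ch_of_seq (s := 0) (n := n) (step := step) (X := X) (a := a) (b := b) (K := K)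
    fun i _ hi => h i (by omega)
  simp only [Nat.zero_add] at this
  exact this

end seq

/-! ### computations -/

section comp

variable {Z : Type} {g : Gad Z} {h k : ℕ} {Q : Type} [Fintype Q] {dec : Q → Z} {D₀ : Fin 3 → Q}

theorem lab_final {s : PSt h k Q} {v : Fin k} :
    plab h k s = .final v ↔ s = some (.inl v) := by
  rcases s with _ | v' | ⟨c, τ, D, a, b⟩
  · simp [plab]
  · simp [plab]
  · simp only [plab]
    split_ifs <;> simp

theorem comp_struct (hL : GoalLOC) (I : TInput k) {t : ℕ} {c : ℕ → PSt h k Q} {v : Fin k}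
    (hc : (prog g h k dec D₀).Comp I t c v) :
    ∃ (X : ℕ → Fin 3 → Z) (a b : ℕ → ℕ), X 0 = dec ∘ D₀ ∧
      (∀ i < 5 ^ h, a i < k ∧ b i < k ∧
        opI g h k I v i (a i) (b i) (X i) = some (X (i + 1))) ∧
      (∀ i < 5 ^ h, okG h i (a i) (b i)) ∧
      (∀ i (hi : i < 5 ^ h), ∃ (D : Fin 3 → Q) (a' b' : Fin k), (a' : ℕ) = a i ∧
        (b' : ℕ) = b i ∧ dec ∘ D = X i ∧ c (i + 1) = some (.inr (v, ⟨i, hi⟩, D, a', b'))) ∧
      t = 5 ^ h + 1 ∧ c 0 = none ∧ c (5 ^ h + 1) = some (.inl v) := by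
  obtain ⟨h0, hs, hf⟩ := hc
  have h0' : c 0 = none := h0
  have hf' : c t = some (.inl v) := lab_final.mp hf
  have h5 : 0 < 5 ^ h := by positivity
  have ht0 : t ≠ 0 := by
    rintro rfl
    rw [h0'] at hf'
    simp at hf'
  have s0 := hs 0 (by omega)
  rw [h0', step_start] at s0
  obtain ⟨c₀, τ0, a0, b0, e1, e2, e3⟩ := s0
  have hτ0 : τ0 = ⟨0, h5⟩ := Fin.ext e2
  subst hτ0
  -- the middle states
  have mid : ∀ i (hi : i < 5 ^ h), i + 1 < t ∧ ∃ (D : Fin 3 → Q) (a b : Fin k),
      c (i + 1) = some (.inr (c₀, ⟨i, hi⟩, D, a, b)) ∧ okG h i a b ∧ (i = 0 → D = D₀) := by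
    intro i
    induction i with
    | zero =>
      intro hi
      refine ⟨?_, D₀, a0, b0, e1, e3, fun _ => rfl⟩
      by_contra hlt
      have ht1 : t = 1 := by omega
      subst ht1
      rw [e1] at hf'
      simp at hf'
    | succ i ih =>
      intro hi
      obtain ⟨h1, D, a, b, h2, -⟩ := ih (by omega)
      have h3 := hs (i + 1) h1
      rw [h2, step_mid g dec D₀ I hL] at h3
      rcases h3 with ⟨τ', D', a', b', h4, h5', h6, -⟩ | ⟨-, h5', -⟩
      · have hτ : τ' = ⟨i + 1, hi⟩ := Fin.ext h5'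
        subst hτ
        refine ⟨?_, D', a', b', h4, h6, fun h7 => absurd h7 (by omega)⟩
        by_contra hlt
        have ht1 : t = i + 1 + 1 := by omega
        subst ht1
        rw [h4] at hf'
        simp at hf'
      · simp only at h5'
        omega
  -- the end
  have hend : t = 5 ^ h + 1 ∧ c₀ = v := by
    obtain ⟨h1, D, a, b, h2, -⟩ := mid (5 ^ h - 1) (by omega)
    rw [show 5 ^ h - 1 + 1 = 5 ^ h by omega] at h1 h2
    have h3 := hs (5 ^ h) h1
    rw [h2, step_mid g dec D₀ I hL] at h3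
    rcases h3 with ⟨τ', D', a', b', h4, h5', -⟩ | ⟨h4, -, -⟩
    · have := τ'.2
      simp only at h5'
      omega
    · have ht : t = 5 ^ h + 1 := by
        by_contra hne
        have h6 := hs (5 ^ h + 1) (by omega)
        rw [h4] at h6
        exact step_fin g h k dec D₀ I c₀ _ h6
      subst ht
      rw [h4] at hf'
      simp only [Option.some.injEq, Sum.inl.injEq] at hf'
      exact ⟨rfl, hf'⟩
  obtain ⟨rfl, rfl⟩ := hend
  have ch : ∀ i, ∃ (D : Fin 3 → Q) (a b : Fin k), ∀ hi : i < 5 ^ h,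
      c (i + 1) = some (.inr (c₀, ⟨i, hi⟩, D, a, b)) ∧ okG h i a b ∧ (i = 0 → D = D₀) := by
    intro i
    by_cases hi : i < 5 ^ h
    · obtain ⟨-, D, a, b, h2⟩ := mid i hi
      exact ⟨D, a, b, fun _ => h2⟩
    · exact ⟨D₀, a0, b0, fun hi' => absurd hi' hi⟩
  choose D a b hD using ch
  -- the last content
  have hlast : (opI g h k I c₀ (5 ^ h - 1) (a (5 ^ h - 1)) (b (5 ^ h - 1))
      (dec ∘ D (5 ^ h - 1))).isSome := by
    obtain ⟨h2, -⟩ := hD (5 ^ h - 1) (by omega)
    have h3 := hs (5 ^ h) (by omega)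
    rw [show 5 ^ h - 1 + 1 = 5 ^ h by omega] at h2
    rw [h2, step_mid g dec D₀ I hL] at h3
    rcases h3 with ⟨τ', D', a', b', h4, h5', -⟩ | ⟨-, -, h4⟩
    · have := τ'.2
      simp only at h5'
      omega
    · exact h4
  obtain ⟨F, hF⟩ := Option.isSome_iff_exists.mp hlast
  refine ⟨fun i => if i < 5 ^ h then dec ∘ D i else F, fun i => a i, fun i => b i, ?_, ?_, ?_, ?_,
    rfl, h0', hf'⟩
  · simp only [if_pos h5]
    rw [(hD 0 h5).2.2 rfl]
  · intro i hi
    refine ⟨(a i).2, (b i).2, ?_⟩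
    simp only [if_pos hi]
    rcases Nat.lt_or_ge (i + 1) (5 ^ h) with h6 | h6
    · rw [if_pos h6]
      have h3 := hs (i + 1) (by omega)
      rw [(hD i hi).1, (hD (i + 1) h6).1, step_mid g dec D₀ I hL] at h3
      rcases h3 with ⟨τ', D', a', b', h4, h5', -, h7⟩ | ⟨h4, -, -⟩
      · simp only [Option.some.injEq, Sum.inr.injEq, Prod.mk.injEq] at h4
        obtain ⟨-, -, h8, -, -⟩ := h4
        rw [h8]
        exact h7
      · simp at h4
    · rw [if_neg (by omega)]
      have h7 : i = 5 ^ h - 1 := by omega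
      rw [h7]
      exact hF
  · intro i hi
    exact (hD i hi).2.1
  · intro i hi
    refine ⟨D i, a i, b i, rfl, rfl, ?_, (hD i hi).1⟩
    simp only [if_pos hi]

/-! ### the theorem -/

variable (hg : g.OK) (hk : 2 ≤ k) (hK : g.K = k)

include hg hk hK

theorem chainI {I : TInput k} {v : ℕ} {X : ℕ → Fin 3 → Z} {a b : ℕ → ℕ}
    (hX : ∀ i < 5 ^ h, a i < k ∧ b i < k ∧ opI g h k I v i (a i) (b i) (X i) = some (X (i + 1)))
    {i : ℕ} (hi : i ≤ 5 ^ h) : Ch (opI g h k I v) g.K i (X 0) (X i) := by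
  subst hK
  exact ch_of_seq0 fun j hj => hX j (by omega)

theorem root_eq {I : TInput k} {v : Fin k} {X : ℕ → Fin 3 → Z} {a b : ℕ → ℕ}
    (hV : ∀ k, g.V (X 0 k))
    (hX : ∀ i < 5 ^ h, a i < k ∧ b i < k ∧ opI g h k I v i (a i) (b i) (X i) = some (X (i + 1))) :
    v = I.val h 1 := by
  have h1 := chainI hg hk hK hX le_rfl
  rw [opI, exact_all hg (fun j => by rw [hK]; exact lf_lt I j)
    (fun j a b => by rw [hK]; exact tf_lt I (by omega) j a b) h 1 0 0 _ _ hV] at h1
  obtain ⟨z, h2, -⟩ := h1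
  unfold app at h2
  rw [if_pos rfl, nval_val] at h2
  split_ifs at h2 with h3
  unfold tstc at h3
  have h4 : ((I.val h 1 : Fin k) : ℕ) = v := by
    by_contra hne
    rw [if_neg hne] at h3
    exact h3 rfl
  exact (Fin.ext h4).symm

theorem exists_comp (hL : GoalLOC) (hD : Function.Injective dec)
    (hR : ∀ z, g.V z → g.st z < g.G ^ (h + 1) → ∃ q, dec q = z)
    (hV : ∀ k, g.V (dec (D₀ k))) (hst : ∀ k, g.st (dec (D₀ k)) = 0) (I : TInput k) :
    ∃ t c v, (prog g h k dec D₀).Comp I t c v := by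
  have h5 : 0 < 5 ^ h := by positivity
  have hl : ∀ j, lf I j < g.K := fun j => by rw [hK]; exact lf_lt I j
  have hf : ∀ j a b, tf I j a b < g.K := fun j a b => by rw [hK]; exact tf_lt I (by omega) j a b
  set v : Fin k := I.val h 1 with hv
  have hch : Ch (opI g h k I v) g.K (5 ^ h) (dec ∘ D₀)
      (Function.update (dec ∘ D₀) 0 (dec (D₀ 0))) := by
    rw [opI, exact_all hg hl hf h 1 0 0 (dec ∘ D₀) _ hV]
    refine ⟨dec (D₀ 0), ?_, rfl⟩
    unfold app
    rw [if_pos rfl, nval_val, if_neg]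
    · rfl
    · unfold tstc
      rw [if_pos rfl]
      norm_num
  obtain ⟨X, a, b, hX0, -, hX⟩ := seq_of_ch hch
  rw [hK] at hX
  have hdec : ∀ i, ∃ D : Fin 3 → Q, i < 5 ^ h → dec ∘ D = X i ∧ (i = 0 → D = D₀) := by
    intro i
    by_cases hi : i < 5 ^ h
    · have hb := gALB gCHS gALG g hg (tstc v) (lf I) (tf I) hl hf h 1 0 0 (X 0) (X i) i 1 hi.le
        (fun j => by rw [hX0]; exact hV j) (fun j => by
          rw [hX0]
          have := hst j
          simp only [Function.comp]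
          omega) (chainI hg hk hK hX hi.le)
      have hq : ∀ j, ∃ q, dec q = X i j := fun j => hR _ (hb j).1 (by
        have := (hb j).2
        rwa [one_mul] at this)
      choose D hDD using hq
      refine ⟨D, fun _ => ⟨funext hDD, ?_⟩⟩
      rintro rfl
      funext j
      apply hD
      rw [hDD j, hX0]
      rfl
    · exact ⟨D₀, fun h' => absurd h' hi⟩
  choose D hDX using hdec
  -- the normalized guesses
  have hgs : ∀ i, ∃ a' b' : Fin k, i < 5 ^ h → okG h i a' b' ∧
      opI g h k I v i a' b' (X i) = some (X (i + 1)) := by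
    intro i
    by_cases hi : i < 5 ^ h
    · obtain ⟨h1, h2, h3⟩ := hX i hi
      by_cases hG : isG h i
      · exact ⟨⟨a i, h1⟩, ⟨b i, h2⟩, fun _ => ⟨Or.inl hG, h3⟩⟩
      · refine ⟨⟨0, by omega⟩, ⟨0, by omega⟩, fun _ => ⟨Or.inr ⟨rfl, rfl⟩, ?_⟩⟩
        rw [← h3]
        exact hL.2.1 g (tstc v) (lf I) (tf I) h 1 0 0 i 0 0 (a i) (b i) (X i) hG
    · exact ⟨⟨0, by omega⟩, ⟨0, by omega⟩, fun h' => absurd h' hi⟩
  choose a' b' hab using hgs
  let c : ℕ → PSt h k Q := fun i => match i with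
    | 0 => none
    | i + 1 => if hi : i < 5 ^ h then some (.inr (v, ⟨i, hi⟩, D i, a' i, b' i)) else some (.inl v)
  have hc : ∀ i (hi : i < 5 ^ h), c (i + 1) = some (.inr (v, ⟨i, hi⟩, D i, a' i, b' i)) := by
    intro i hi
    simp only [c, dif_pos hi]
  have hcl : c (5 ^ h + 1) = some (.inl v) := by
    simp only [c, lt_irrefl, dif_neg, not_false_iff]
  refine ⟨5 ^ h + 1, c, v, rfl, ?_, ?_⟩
  · intro i hi
    rcases Nat.eq_zero_or_pos i with h0 | h0
    · subst h0
      change (prog g h k dec D₀).Step I none (c (0 + 1))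
      rw [step_start, hc 0 h5]
      refine ⟨v, ⟨0, h5⟩, a' 0, b' 0, ?_, rfl, (hab 0 h5).1⟩
      rw [(hDX 0 h5).2 rfl]
    · obtain ⟨j, rfl⟩ : ∃ j, i = j + 1 := ⟨i - 1, by omega⟩
      have hj : j < 5 ^ h := by omega
      rw [hc j hj, step_mid g dec D₀ I hL]
      rcases Nat.lt_or_ge (j + 1) (5 ^ h) with h6 | h6
      · left
        rw [hc (j + 1) h6]
        refine ⟨⟨j + 1, h6⟩, D (j + 1), a' (j + 1), b' (j + 1), rfl, rfl, (hab (j + 1) h6).1, ?_⟩
        rw [(hDX j hj).1, (hDX (j + 1) h6).1]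
        exact (hab j hj).2
      · right
        have h7 : j + 1 = 5 ^ h := by omega
        refine ⟨?_, h7, ?_⟩
        · rw [h7, hcl]
        · rw [(hDX j hj).1]
          exact Option.isSome_iff_exists.mpr ⟨_, (hab j hj).2⟩
  · change plab h k (c (5 ^ h + 1)) = _
    rw [hcl]
    rfl

end comp

theorem gBPC : GoalBPC := by
  intro _ _ _ _ _ hL Z g hg h k z₀ hh hk hK hVz hsz Q _ dec hD hR
  have h5 : 0 < 5 ^ h := by positivity
  obtain ⟨q₀, hq₀⟩ := hR z₀ hVz (by rw [hsz]; exact Nat.pow_pos hg.one_le)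
  have hV : ∀ j : Fin 3, g.V (dec ((fun _ => q₀ : Fin 3 → Q) j)) := fun j => by
    simp only [hq₀]
    exact hVz
  have hst : ∀ j : Fin 3, g.st (dec ((fun _ => q₀ : Fin 3 → Q) j)) = 0 := fun j => by
    simp only [hq₀]
    exact hsz
  have hlog : ∀ τ < 5 ^ h, isG h τ → 1 ≤ (gN h 1 τ).1 ∧ (gN h 1 τ).1 < 2 ^ h ∧
      (gN h 1 τ).2 = h - Nat.log 2 (gN h 1 τ).1 - 1 := by
    intro τ hτ hG
    have := (hL.2.2 h 0 1 τ hτ (by norm_num) (by norm_num)).2 hG
    rwa [Nat.zero_add] at this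
  have hleaf : ∀ τ < 5 ^ h, 2 ^ h ≤ lN h 1 τ ∧ lN h 1 τ < 2 ^ (h + 1) := by
    intro τ hτ
    have := (hL.2.2 h 0 1 τ hτ (by norm_num) (by norm_num)).1
    rwa [Nat.zero_add] at this
  have hl : ∀ (I : TInput k) j, lf I j < g.K := fun I j => by rw [hK]; exact lf_lt I j
  have hf : ∀ (I : TInput k) j a b, tf I j a b < g.K := fun I j a b => by
    rw [hK]
    exact tf_lt I (by omega) j a b
  refine ⟨prog g h k dec (fun _ => q₀), ⟨?_, ?_⟩, ?_, ?_, ?_, prog_size g h k dec _⟩
  · -- leaf labels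
    rintro s j hs
    change plab h k s = _ at hs
    rcases s with _ | v | ⟨c, τ, D, a, b⟩
    · simp only [plab, Lab.leaf.injEq] at hs
      subst hs
      exact ⟨le_rfl, Nat.pow_lt_pow_right (by norm_num) (by omega)⟩
    · simp [plab] at hs
    · simp only [plab] at hs
      split_ifs at hs with hG
      simp only [Lab.leaf.injEq] at hs
      subst hs
      exact hleaf τ τ.2
  · -- node labels
    rintro s j x y hs
    change plab h k s = _ at hs
    rcases s with _ | v | ⟨c, τ, D, a, b⟩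
    · simp [plab] at hs
    · simp [plab] at hs
    · simp only [plab] at hs
      split_ifs at hs with hG
      simp only [Lab.node.injEq] at hs
      obtain ⟨rfl, -, -⟩ := hs
      have := hlog τ τ.2 hG
      exact ⟨this.1, this.2.1⟩
  · -- computes
    intro I
    refine ⟨exists_comp hg hk hK hL hD hR hV hst I, ?_⟩
    intro t c v hc
    obtain ⟨X, a, b, hX0, hX, -⟩ := comp_struct hL I hc
    exact root_eq hg hk hK (by rw [hX0]; exact hV) hX
  · -- unambiguous
    intro I t c v t' c' v' hc hc'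
    obtain ⟨X, a, b, hX0, hX, hok, hst1, rfl, hc0, hcl⟩ := comp_struct hL I hc
    obtain ⟨X', a', b', hX0', hX', hok', hst1', rfl, hc0', hcl'⟩ := comp_struct hL I hc'
    have e1 : v = I.val h 1 := root_eq hg hk hK (by rw [hX0]; exact hV) hX
    have e2 : v' = I.val h 1 := root_eq hg hk hK (by rw [hX0']; exact hV) hX'
    have e3 : v' = v := by rw [e1, e2]
    subst e3
    refine ⟨rfl, ?_⟩
    intro i hi
    rcases Nat.eq_zero_or_pos i with h0 | h0
    · subst h0
      rw [hc0, hc0']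
    · obtain ⟨j, rfl⟩ : ∃ j, i = j + 1 := ⟨i - 1, by omega⟩
      rcases Nat.lt_or_ge j (5 ^ h) with hj | hj
      · obtain ⟨D, a1, b1, ea, eb, eD, ec⟩ := hst1 j hj
        obtain ⟨D', a1', b1', ea', eb', eD', ec'⟩ := hst1' j hj
        have rest : ∀ {X : ℕ → Fin 3 → Z} {a b : ℕ → ℕ}, (∀ i < 5 ^ h, a i < k ∧ b i < k ∧
            opI g h k I v' i (a i) (b i) (X i) = some (X (i + 1))) →
            Ch (fun τ => opI g h k I v' (j + 1 + τ)) g.K (5 ^ h - (j + 1)) (X (j + 1))
              (X (j + 1 + (5 ^ h - (j + 1)))) := by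
          intro X a b hX
          subst hK
          exact ch_of_seq fun i _ hi => hX i (by omega)
        have hcj := chainI hg hk hK hX hj.le
        have hcj' := chainI hg hk hK hX' hj.le
        rw [hX0] at hcj
        rw [hX0'] at hcj'
        have hu := gUNQ gCHS gALG g hg (tstc v') (lf I) (tf I) (hl I) (hf I) h 1 0 0
          (dec ∘ fun _ => q₀) (X j) (X' j) (X (j + 1)) (X' (j + 1)) _ _ j (a j) (b j) (a' j)
          (b' j) hj hV (by rw [hK]; exact (hX j hj).1) (by rw [hK]; exact (hX j hj).2.1)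
          (by rw [hK]; exact (hX' j hj).1) (by rw [hK]; exact (hX' j hj).2.1)
          hcj (hX j hj).2.2 (rest hX) hcj' (hX' j hj).2.2 (rest hX')
        obtain ⟨u1, -, u3⟩ := hu
        have hDD : D = D' := by
          apply hD.comp_left
          change dec ∘ D = dec ∘ D'
          rw [eD, eD', u1]
        have hab : a j = a' j ∧ b j = b' j := by
          by_cases hG : isG h j
          · exact u3 hG
          · have o1 := hok j hj
            have o2 := hok' j hj
            unfold okG at o1 o2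
            rcases o1 with o1 | o1
            · exact absurd o1 hG
            · rcases o2 with o2 | o2
              · exact absurd o2 hG
              · exact ⟨by omega, by omega⟩
        have ha1 : a1 = a1' := Fin.ext (by rw [ea, ea', hab.1])
        have hb1 : b1 = b1' := Fin.ext (by rw [eb, eb', hab.2])
        rw [ec, ec', hDD, ha1, hb1]
      · have h7 : j = 5 ^ h := by omega
        subst h7
        rw [hcl, hcl']
  · -- thrifty
    intro I t c v hc i hi j x y hlab
    obtain ⟨X, a, b, hX0, hX, hok, hst1, rfl, hc0, hcl⟩ := comp_struct hL I hc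
    change plab h k (c i) = _ at hlab
    rcases Nat.eq_zero_or_pos i with h0 | h0
    · subst h0
      rw [hc0] at hlab
      simp [plab] at hlab
    · obtain ⟨i', rfl⟩ : ∃ j, i = j + 1 := ⟨i - 1, by omega⟩
      have hi' : i' < 5 ^ h := by omega
      obtain ⟨D, a1, b1, ea, eb, eD, ec⟩ := hst1 i' hi'
      rw [ec] at hlab
      simp only [plab] at hlab
      split_ifs at hlab with hG
      simp only [Lab.node.injEq] at hlab
      obtain ⟨rfl, rfl, rfl⟩ := hlab
      have hcj := chainI hg hk hK hX hi'.le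
      rw [hX0] at hcj
      have rest : Ch (fun τ => opI g h k I v (i' + 1 + τ)) g.K (5 ^ h - (i' + 1)) (X (i' + 1))
            (X (i' + 1 + (5 ^ h - (i' + 1)))) := by
        subst hK
        exact ch_of_seq fun i _ hi => hX i (by omega)
      have ht := gTHR gCHS gALG g hg (tstc v) (lf I) (tf I) (hl I) (hf I) h 1 0 0
        (dec ∘ fun _ => q₀) (X i') (X (i' + 1)) _ i' (a i') (b i') hi' hG hV
        (by rw [hK]; exact (hX i' hi').1) (by rw [hK]; exact (hX i' hi').2.1)
        hcj (hX i' hi').2.2 rest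
      rw [nval_val, nval_val, (hlog i' hi' hG).2.2] at ht
      exact ⟨Fin.ext (by rw [ea]; exact ht.1), Fin.ext (by rw [eb]; exact ht.2)⟩

end Pool.Agent.Helper44.TE
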