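import Pool.Agent.Helper44.TE.Unq
import Pool.Agent.Helper1.TE.Goals4

set_option autoImplicit false
set_option linter.unusedSectionVars false

namespace Pool.Agent.Helper44.TE

open Pool.Agent.Helper1.TE

section

variable {Z : Type} {g : Gad Z} {tst : ℕ → ℕ} {leaf : ℕ → ℕ} {f : ℕ → ℕ → ℕ → ℕ}
variable (hg : g.OK) (hl : ∀ j, leaf j < g.K) (hf : ∀ j a b, f j a b < g.K)

include hg hl hf

theorem thr_all (h : ℕ) : ∀ (j T : ℕ) (i : Fin 3) (C D E F : Fin 3 → Z) (t a b : ℕ),
    t < 5 ^ h → isG h t →
    (∀ k, g.V (C k)) → a < g.K → b < g.K →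
    Ch (opR g tst leaf f h j T i) g.K t C D → opR g tst leaf f h j T i t a b D = some E →
    Ch (fun τ => opR g tst leaf f h j T i (t + 1 + τ)) g.K (5 ^ h - (t + 1)) E F →
    a = nval leaf f (gN h j t).2 (2 * (gN h j t).1) ∧
    b = nval leaf f (gN h j t).2 (2 * (gN h j t).1 + 1) := by
  have hK : 0 < g.K := lt_of_le_of_lt (Nat.zero_le _) (hl 0)
  induction h with
  | zero =>
    intro j T i C D E F t a b ht hG
    exact hG.elim
  | succ h ih =>
    intro j T i C D E F t a b ht hG0 hV ha hb c1 c2 c3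
    have h5 : 0 < 5 ^ h := by positivity
    obtain ⟨r, t', hr, ht', hrt⟩ : ∃ r t', r ≤ 4 ∧ t' < 5 ^ h ∧ t = r * 5 ^ h + t' := by
      refine ⟨t / 5 ^ h, t % 5 ^ h, ?_, Nat.mod_lt _ h5, ?_⟩
      · rw [pow_succ'] at ht
        have := (Nat.div_lt_iff_lt_mul h5).mpr ht
        omega
      · rw [Nat.mul_comm]
        exact (Nat.div_add_mod _ _).symm
    subst hrt
    obtain ⟨P, Q, d1, d2, d3, d4, d5⟩ := decomp hr ht' c1 c2 c3
    have hN : t' + 1 + (5 ^ h - (t' + 1)) = 5 ^ h := by omega
    have full := ch_join ha hb d2 d3 d4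
    rw [hN] at full
    rw [← tri_self i C] at d1
    obtain ⟨-, hPV⟩ := state_det hg hl hf hr (hV i) (hV (i + 1)) (hV (i + 2)) d1 full d5
      d1 full d5
    have hG : isG (h + 1) (r * 5 ^ h + t')
        ↔ (r = 2 ∧ t' = 0) ∨ (r ≠ 2 ∧ isG h t') := by
      rw [isG, div_bl r ht', mod_bl r ht']
    rw [hG] at hG0
    have key : ∀ (j' T' : ℕ) (i' : Fin 3), r ≠ 2 →
        gN (h + 1) j (r * 5 ^ h + t') = gN h j' t' →
        (∀ τ < 5 ^ h, ∀ a b s, blk g tst leaf f h j T i r τ a b s
          = opR g tst leaf f h j' T' i' τ a b s) →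
        a = nval leaf f (gN (h + 1) j (r * 5 ^ h + t')).2
            (2 * (gN (h + 1) j (r * 5 ^ h + t')).1) ∧
        b = nval leaf f (gN (h + 1) j (r * 5 ^ h + t')).2
            (2 * (gN (h + 1) j (r * 5 ^ h + t')).1 + 1) := by
      intro j' T' i' hr2 hgn hs
      rw [hgn]
      refine ih j' T' i' P D E Q t' a b ht' ?_ hPV ha hb
        (ch_congr (fun τ hτ a b s => hs τ (by omega) a b s) d2)
        ((hs t' ht' a b D) ▸ d3)
        (ch_congr (fun τ hτ a b s => hs (t' + 1 + τ) (by omega) a b s) d4)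
      rcases hG0 with h6 | h6
      · exact absurd h6.1 hr2
      · exact h6.2
    interval_cases r
    · exact key (2 * j) 1 (i + 1) (by norm_num)
        (by rw [gN, div_bl 0 ht', mod_bl 0 ht', if_pos rfl])
        fun τ hτ a b s => op0 g tst leaf f h j T i τ a b s hτ
    · exact key (2 * j + 1) 1 (i + 2) (by norm_num)
        (by rw [gN, div_bl 1 ht', mod_bl 1 ht', if_neg (by decide), if_pos rfl])
        fun τ hτ a b s => op1 g tst leaf f h j T i τ a b s hτ
    · -- the guess block
      have hE := exact_all (tst := tst) hg hl hf h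
      have h0 : t' = 0 := by
        rcases hG0 with h6 | h6
        · exact h6.2
        · exact absurd rfl h6.1
      subst h0
      have hgn : gN (h + 1) j (2 * 5 ^ h + 0) = (j, h) := by
        rw [gN, div_bl 2 ht', if_neg (by decide), if_neg (by decide), if_pos rfl]
      rw [hgn]
      rw [p2 hg hl hf hE (hV i) (hV (i + 1)) (hV (i + 2))] at d1
      subst d1
      rw [ch_zero_iff] at d2
      subst d2
      have s1 : ∀ τ < 5 ^ h - (0 + 1), ∀ a b s,
          blk g tst leaf f h j T i 2 (0 + 1 + τ) a b s = some s := by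
        intro τ hτ a b s
        have := op2 g tst leaf f h j T i (0 + 1 + τ) a b s (by omega)
        rw [if_neg (by omega)] at this
        exact this
      rw [ch_some hK s1] at d4
      subst d4
      have s2 : ∀ a b s, blk g tst leaf f h j T i 2 0 a b s = guess g tst (f j) T i a b s := by
        intro a b s
        have := op2 g tst leaf f h j T i 0 a b s h5
        rw [if_pos rfl] at this
        exact this
      rw [s2, guess_tri, Option.map_eq_some_iff] at d3
      obtain ⟨x', hx', rfl⟩ := d3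
      exact last_two hg hl hf ha hb (app_V hg (hf _ _ _) (hV i) hx') (hV (i + 1))
        (hV (i + 2)) d5
    · exact key (2 * j) 2 (i + 1) (by norm_num)
        (by rw [gN, div_bl 3 ht', mod_bl 3 ht', if_neg (by decide), if_neg (by decide),
          if_neg (by decide), if_pos rfl])
        fun τ hτ a b s => op3 g tst leaf f h j T i τ a b s hτ
    · exact key (2 * j + 1) 2 (i + 2) (by norm_num)
        (by rw [gN, div_bl 4 ht', mod_bl 4 ht', if_neg (by decide), if_neg (by decide),
          if_neg (by decide), if_neg (by decide)])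
        fun τ hτ a b s => op4 g tst leaf f h j T i τ a b s hτ

end

theorem gTHR : GoalTHR := by
  intro _ _ Z g hg tst leaf f hl hf h j T i C D E F t a b ht hG hV ha hb c1 c2 c3
  exact thr_all hg hl hf h j T i C D E F t a b ht hG hV ha hb c1 c2 c3

end Pool.Agent.Helper44.TE
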